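import Mathlib

/-!
# A multiplier which moves a set of integers away from zero modulo one

Let `S` be a finite set of integers `≥ 2 ^ μ` which meets every `[2 ^ j, 2 ^ (j + 1))` inside `k`
intervals of length less than `2 ^ (μ + 1)`, and let `1600 k b ≤ 2 ^ b`. Then there is a rational `p / Q` such that the
distance of `s p / Q` to the integers is at least `2 ^ (- b)` for all `s ∈ S` (method of Peres and
Schlag).
-/

set_option autoImplicit false

namespace Pool.Agent.SCHL

open Finset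

theorem card_strip (a c w x : ℕ) (ha : 0 < a) (X : Finset ℕ)
    (h : ∀ p ∈ X, x ≤ p * a + c ∧ p * a + c < x + w) : X.card ≤ w / a + 1 := by
  rcases X.eq_empty_or_nonempty with rfl | hX
  · simp
  set p0 := X.min' hX
  have h0 := h p0 (X.min'_mem hX)
  have hsub : X ⊆ Finset.Icc p0 (p0 + w / a) := by
    intro p hp
    have h1 := h p hp
    have h2 : p0 ≤ p := X.min'_le p hp
    rw [Finset.mem_Icc]
    refine ⟨h2, ?_⟩
    obtain ⟨d, rfl⟩ := Nat.exists_eq_add_of_le h2
    have h3 : d * a ≤ w := by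
      have : (p0 + d) * a + c < x + w := h1.2
      have e : (p0 + d) * a = p0 * a + d * a := by ring
      rw [e] at this
      omega
    have : d ≤ w / a := (Nat.le_div_iff_mul_le ha).2 h3
    omega
  have := Finset.card_le_card hsub
  rw [Nat.card_Icc] at this
  generalize w / a = y at this ⊢
  omega

theorem count_arc (a c Q w L j : ℕ) (ha : 0 < a) (hL : L * a ≤ Q) (hQ : 0 < Q) :
    ((Finset.Ico (j * L) (j * L + L)).filter (fun p => (p * a + c) % Q < w)).card
      ≤ 2 * (w / a + 1) := by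
  classical
  set q := (j * L * a + c) / Q with hq
  set X := (Finset.Ico (j * L) (j * L + L)).filter (fun p => (p * a + c) % Q < w) with hX
  have hsub : X ⊆ X.filter (fun p => q * Q ≤ p * a + c ∧ p * a + c < q * Q + w) ∪
      X.filter (fun p => (q + 1) * Q ≤ p * a + c ∧ p * a + c < (q + 1) * Q + w) := by
    intro p hp
    have hp' := hp
    rw [hX, Finset.mem_filter, Finset.mem_Ico] at hp'
    obtain ⟨⟨h1, h2⟩, h3⟩ := hp'
    have e1 : Q * ((p * a + c) / Q) + (p * a + c) % Q = p * a + c := Nat.div_add_mod _ _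
    have e2 : Q * q + (j * L * a + c) % Q = j * L * a + c := Nat.div_add_mod _ _
    have e3 : (j * L * a + c) % Q < Q := Nat.mod_lt _ hQ
    have e4 : (p * a + c) % Q < Q := Nat.mod_lt _ hQ
    have l1 : j * L * a ≤ p * a := Nat.mul_le_mul_right _ h1
    have l2 : p * a < (j * L + L) * a := Nat.mul_lt_mul_of_pos_right h2 ha
    have l3 : (j * L + L) * a = j * L * a + L * a := by ring
    set q' := (p * a + c) / Q with hq'
    have hqq : q ≤ q' := Nat.div_le_div_right (by omega)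
    have hqq2 : q' ≤ q + 1 := by
      by_contra hcon
      have : q + 2 ≤ q' := by omega
      have h5 : Q * (q + 2) ≤ Q * q' := Nat.mul_le_mul_left _ this
      have h6 : Q * (q + 2) = Q * q + 2 * Q := by ring
      omega
    rw [Finset.mem_union]
    rcases Nat.lt_or_ge q q' with h | h
    · right
      have hh : q' = q + 1 := by omega
      refine Finset.mem_filter.2 ⟨hp, ?_⟩
      rw [← hh, mul_comm q' Q]
      omega
    · left
      have hh : q' = q := by omega
      refine Finset.mem_filter.2 ⟨hp, ?_⟩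
      rw [← hh, mul_comm q' Q]
      omega
  have h1 := Finset.card_le_card hsub
  have h2 := Finset.card_union_le (X.filter (fun p => q * Q ≤ p * a + c ∧ p * a + c < q * Q + w))
      (X.filter (fun p => (q + 1) * Q ≤ p * a + c ∧ p * a + c < (q + 1) * Q + w))
  have h3 := card_strip a c w (q * Q) ha
    (X.filter (fun p => q * Q ≤ p * a + c ∧ p * a + c < q * Q + w))
    (fun p hp => (Finset.mem_filter.1 hp).2)
  have h4 := card_strip a c w ((q + 1) * Q) ha
    (X.filter (fun p => (q + 1) * Q ≤ p * a + c ∧ p * a + c < (q + 1) * Q + w))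
    (fun p hp => (Finset.mem_filter.1 hp).2)
  omega

/-- The distance of `p s / Q` to the integers is at least `W / Q`. -/
def good (Q W p s : ℕ) : Prop := W ≤ (p * s) % Q ∧ (p * s) % Q + W ≤ Q

def Th (N : ℕ) : Finset ℕ := Finset.Ico (2 ^ (N + 1)) (2 ^ (N + 2))

open Classical in
/-- Bad multipliers for the scale `v`. -/
noncomputable def D (b μ N : ℕ) (S : Finset ℕ) (v : ℕ) : Finset ℕ :=
  (Th N).filter (fun p => ∃ p' ∈ Th N, p' / 2 ^ (N - (v + 1)) = p / 2 ^ (N - (v + 1)) ∧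
    ∃ s ∈ S, 2 ^ (μ + v) ≤ s ∧ s < 2 ^ (μ + v + 1) ∧
      ¬ good (2 ^ (N + μ + b)) (2 ^ (N + μ)) p' s)

theorem mem_D (b μ N : ℕ) (S : Finset ℕ) (v p : ℕ) : p ∈ D b μ N S v ↔ p ∈ Th N ∧
    ∃ p' ∈ Th N, p' / 2 ^ (N - (v + 1)) = p / 2 ^ (N - (v + 1)) ∧
    ∃ s ∈ S, 2 ^ (μ + v) ≤ s ∧ s < 2 ^ (μ + v + 1) ∧
      ¬ good (2 ^ (N + μ + b)) (2 ^ (N + μ)) p' s := by
  classical
  unfold D
  rw [Finset.mem_filter]

noncomputable def F (b μ N : ℕ) (S : Finset ℕ) : ℕ → Finset ℕ
  | 0 => Th N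
  | v + 1 => F b μ N S v \ D b μ N S v

theorem F_sub (b μ N : ℕ) (S : Finset ℕ) (v : ℕ) : F b μ N S v ⊆ Th N := by
  induction v with
  | zero => exact subset_rfl
  | succ v ih => exact (Finset.sdiff_subset).trans ih

theorem F_anti (b μ N : ℕ) (S : Finset ℕ) (u d : ℕ) : F b μ N S (u + d) ⊆ F b μ N S u := by
  induction d with
  | zero => exact subset_rfl
  | succ d ih => exact (Finset.sdiff_subset).trans ih

theorem F_closed (b μ N : ℕ) (S : Finset ℕ) (v : ℕ) (hv : v ≤ N) :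
    ∀ p ∈ F b μ N S v, ∀ p', p' / 2 ^ (N - v) = p / 2 ^ (N - v) → p' ∈ F b μ N S v := by
  induction v with
  | zero =>
    intro p hp p' h
    have h0 : 0 < 2 ^ N := by positivity
    simp only [F, Th, Nat.sub_zero] at hp h ⊢
    rw [Finset.mem_Ico] at hp ⊢
    have e1 : 2 ^ (N + 1) = 2 * 2 ^ N := by ring
    have e2 : 2 ^ (N + 2) = 4 * 2 ^ N := by ring
    rw [e1, e2] at hp ⊢
    have a1 : 2 ≤ p / 2 ^ N := (Nat.le_div_iff_mul_le h0).2 hp.1
    have a2 : p / 2 ^ N < 4 := (Nat.div_lt_iff_lt_mul h0).2 hp.2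
    rw [← h] at a1 a2
    exact ⟨(Nat.le_div_iff_mul_le h0).1 a1, (Nat.div_lt_iff_lt_mul h0).1 a2⟩
  | succ v ih =>
    intro p hp p' h
    have hv' : v ≤ N := by omega
    simp only [F] at hp ⊢
    rw [Finset.mem_sdiff] at hp ⊢
    have e : 2 ^ (N - v) = 2 ^ (N - (v + 1)) * 2 := by
      rw [← pow_succ]
      congr 1
      omega
    have h1 : p' / 2 ^ (N - v) = p / 2 ^ (N - v) := by
      rw [e, ← Nat.div_div_eq_div_mul, ← Nat.div_div_eq_div_mul, h]
    refine ⟨ih hv' p hp.1 p' h1, fun hD => hp.2 ?_⟩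
    rw [mem_D] at hD ⊢
    obtain ⟨-, p'', h2, h3, h4⟩ := hD
    exact ⟨F_sub _ _ _ _ _ hp.1, p'', h2, h3.trans h, h4⟩

/-- A bad multiplier for the scale `v` is bad because of one of the left end points. -/
theorem bad_arc (b μ N v : ℕ) (hb : 4 ≤ b) (hv : v + 1 ≤ N) (p p' a s m : ℕ)
    (hp' : p' ∈ Th N) (hpp : p' / 2 ^ (N - (v + 1)) = p / 2 ^ (N - (v + 1)))
    (has : a ≤ s) (hsa : s < a + m) (hm : m < 2 ^ (μ + 1)) (hs2 : s < 2 ^ (μ + v + 1))
    (hbad : ¬ good (2 ^ (N + μ + b)) (2 ^ (N + μ)) p' s) :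
    (p * a + 10 * 2 ^ (N + μ)) % 2 ^ (N + μ + b) < 12 * 2 ^ (N + μ) := by
  set W : ℕ := 2 ^ (N + μ) with hW
  have hQ : 2 ^ (N + μ + b) = 2 ^ b * W := by rw [hW, ← pow_add]; congr 1; omega
  have hb16 : 16 ≤ 2 ^ b := by
    calc (16 : ℕ) = 2 ^ 4 := by norm_num
      _ ≤ 2 ^ b := Nat.pow_le_pow_right (by norm_num) hb
  set Q : ℕ := 2 ^ (N + μ + b) with hQd
  have hWpos : 0 < W := by positivity
  have hQ16 : 16 * W ≤ Q := by rw [hQ]; exact Nat.mul_le_mul_right _ hb16
  have hQpos : 0 < Q := by omega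
  -- the block
  set δ : ℕ := 2 ^ (N - (v + 1)) with hδ
  have hδpos : 0 < δ := by positivity
  have e1 := Nat.div_add_mod p δ
  have e2 := Nat.div_add_mod p' δ
  have e3 := Nat.mod_lt p hδpos
  have e4 := Nat.mod_lt p' hδpos
  rw [hpp] at e2
  have hd1 : p < p' + δ := by omega
  have hd2 : p' < p + δ := by omega
  have hδW : δ * 2 ^ (μ + v + 1) = W := by
    rw [hδ, hW, ← pow_add]
    congr 1
    omega
  -- size of p'
  rw [Th, Finset.mem_Ico] at hp'
  have hp8 : p' * m ≤ 8 * W := by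
    have h1 : p' * m ≤ 2 ^ (N + 2) * 2 ^ (μ + 1) := Nat.mul_le_mul hp'.2.le hm.le
    have h2 : 2 ^ (N + 2) * 2 ^ (μ + 1) = 8 * W := by
      rw [hW, ← pow_add]
      have : N + 2 + (μ + 1) = 3 + (N + μ) := by omega
      rw [this, pow_add]
      norm_num
    omega
  obtain ⟨d, rfl⟩ := Nat.exists_eq_add_of_le has
  have hdm : d < m := by omega
  have hpd : p' * d ≤ 8 * W := (Nat.mul_le_mul_left _ hdm.le).trans hp8
  have haW : δ * a ≤ W := by
    rw [← hδW]
    exact Nat.mul_le_mul_left _ (by omega)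
  have f1 : p * a ≤ p' * a + δ * a := by
    rw [← Nat.add_mul]
    exact Nat.mul_le_mul_right _ hd1.le
  have f2 : p' * a ≤ p * a + δ * a := by
    rw [← Nat.add_mul]
    exact Nat.mul_le_mul_right _ hd2.le
  -- position of p' s modulo Q
  have g1 := Nat.div_add_mod (p' * (a + d)) Q
  have g2 := Nat.mod_lt (p' * (a + d)) hQpos
  set r := (p' * (a + d)) % Q with hr
  set z := (p' * (a + d)) / Q with hz
  have g3 : p' * (a + d) = p' * a + p' * d := by ring
  rw [g3] at g1
  unfold good at hbad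
  rw [← hr] at hbad
  have hr' : r < W ∨ Q < r + W := by
    by_contra hcon
    push Not at hcon
    exact hbad hcon
  have key : ∃ z' : ℕ, Q * z' ≤ p * a + 10 * W ∧ p * a + 10 * W < Q * z' + 12 * W := by
    rcases hr' with h | h
    · refine ⟨z, by omega, by omega⟩
    · refine ⟨z + 1, ?_, ?_⟩
      · rw [Nat.mul_add, Nat.mul_one]; omega
      · rw [Nat.mul_add, Nat.mul_one]; omega
  obtain ⟨z', k1, k2⟩ := key
  obtain ⟨y, hy⟩ := Nat.exists_eq_add_of_le k1
  have hy2 : y < 12 * W := by omega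
  rw [hy, Nat.mul_add_mod, Nat.mod_eq_of_lt (by omega)]
  exact hy2

/-- In every dyadic interval the set `S` is covered by `k` intervals of length `m < 2 ^ (μ + 1)`. -/
def Cov (S : Finset ℕ) (μ k : ℕ) : Prop :=
  ∃ m : ℕ, m < 2 ^ (μ + 1) ∧ ∀ v : ℕ, ∃ A : Finset ℕ, A.card ≤ k ∧
    ∀ s ∈ S, 2 ^ (μ + v) ≤ s → s < 2 ^ (μ + v + 1) → ∃ a ∈ A, a ≤ s ∧ s < a + m

theorem count_block (h μ N k v : ℕ) (S : Finset ℕ) (hh : 2 ≤ h) (hv : h ≤ v) (hvN : v + 1 ≤ N)
    (hcov : Cov S μ k) (j : ℕ) :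
    ((D (h + 3) μ N S v).filter (fun p => p / 2 ^ (N - (v - h)) = j)).card ≤
      50 * k * 2 ^ (N - v) := by
  classical
  obtain ⟨m, hm, hA⟩ := hcov
  obtain ⟨A, hAk, hA⟩ := hA v
  set L : ℕ := 2 ^ (N - (v - h)) with hL
  have hLpos : 0 < L := by positivity
  set W : ℕ := 2 ^ (N + μ) with hW
  set Q : ℕ := 2 ^ (N + μ + (h + 3)) with hQ
  have hQpos : 0 < Q := by positivity
  set A' := A.filter (fun a => 2 ^ (μ + v - 1) ≤ a ∧ a < 2 ^ (μ + v + 1)) with hA'
  have hsub : (D (h + 3) μ N S v).filter (fun p => p / L = j) ⊆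
      A'.biUnion (fun a => (Finset.Ico (j * L) (j * L + L)).filter
        (fun p => (p * a + 10 * W) % Q < 12 * W)) := by
    intro p hp
    rw [Finset.mem_filter, mem_D] at hp
    obtain ⟨⟨-, p', hp', hpp, s, hsS, hs1, hs2, hbad⟩, hpj⟩ := hp
    obtain ⟨a, haA, has, hsa⟩ := hA s hsS hs1 hs2
    rw [Finset.mem_biUnion]
    refine ⟨a, ?_, ?_⟩
    · rw [hA', Finset.mem_filter]
      refine ⟨haA, ?_, by omega⟩
      have h1 : 2 ^ (μ + v) = 2 * 2 ^ (μ + v - 1) := by
        rw [← pow_succ']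
        congr 1
        omega
      have h2 : 2 ^ (μ + 1) ≤ 2 ^ (μ + v - 1) := Nat.pow_le_pow_right (by norm_num) (by omega)
      omega
    · rw [Finset.mem_filter, Finset.mem_Ico]
      refine ⟨?_, bad_arc (h + 3) μ N v (by omega) hvN p p' a s m hp' hpp has hsa hm hs2 hbad⟩
      have e1 := Nat.div_add_mod p L
      have e2 := Nat.mod_lt p hLpos
      rw [hpj, mul_comm] at e1
      omega
  refine (Finset.card_le_card hsub).trans ?_
  refine (Finset.card_biUnion_le_card_mul A' _ (50 * 2 ^ (N - v)) ?_).trans ?_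
  · intro a ha
    rw [hA', Finset.mem_filter] at ha
    obtain ⟨-, ha1, ha2⟩ := ha
    have hapos : 0 < a := lt_of_lt_of_le (by positivity) ha1
    have hLa : L * a ≤ Q := by
      calc L * a ≤ 2 ^ (N - (v - h)) * 2 ^ (μ + v + 1) := Nat.mul_le_mul_left _ ha2.le
        _ = 2 ^ (N - (v - h) + (μ + v + 1)) := by rw [← pow_add]
        _ ≤ Q := Nat.pow_le_pow_right (by norm_num) (by omega)
    have h1 := count_arc a (10 * W) Q (12 * W) L j hapos hLa hQpos
    have h2 : 12 * W / a ≤ 24 * 2 ^ (N - v) := by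
      calc 12 * W / a ≤ 12 * W / 2 ^ (μ + v - 1) := Nat.div_le_div_left ha1 (by positivity)
        _ = 24 * 2 ^ (N - v) := by
          apply Nat.div_eq_of_eq_mul_left (by positivity)
          have : W = 2 * (2 ^ (N - v) * 2 ^ (μ + v - 1)) := by
            rw [← pow_add, ← pow_succ', hW]
            congr 1
            omega
          rw [this]
          ring
    have h3 : 1 ≤ 2 ^ (N - v) := Nat.one_le_two_pow
    generalize 12 * W / a = y at h1 h2
    omega
  · have h4 : A'.card ≤ k := (Finset.card_filter_le _ _).trans hAk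
    calc A'.card * (50 * 2 ^ (N - v)) ≤ k * (50 * 2 ^ (N - v)) := Nat.mul_le_mul_right _ h4
      _ = 50 * k * 2 ^ (N - v) := by ring

theorem F_fiber (b μ N u : ℕ) (S : Finset ℕ) (hu : u ≤ N) (j : ℕ)
    (hj : j ∈ (F b μ N S u).image (fun p => p / 2 ^ (N - u))) :
    2 ^ (N - u) ≤ ((F b μ N S u).filter (fun p => p / 2 ^ (N - u) = j)).card := by
  classical
  obtain ⟨p, hp, rfl⟩ := Finset.mem_image.1 hj
  set L : ℕ := 2 ^ (N - u) with hL
  have hLpos : 0 < L := by positivity
  have hsub : Finset.Ico (p / L * L) (p / L * L + L) ⊆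
      (F b μ N S u).filter (fun q => q / L = p / L) := by
    intro q hq
    rw [Finset.mem_Ico] at hq
    have hqL : q / L = p / L := by
      apply Nat.div_eq_of_lt_le hq.1
      rw [Nat.add_mul, Nat.one_mul]
      exact hq.2
    exact Finset.mem_filter.2 ⟨F_closed b μ N S u hu p hp q hqL, hqL⟩
  have := Finset.card_le_card hsub
  rw [Nat.card_Ico] at this
  omega

theorem step_count (h μ N k v : ℕ) (S : Finset ℕ) (hh : 2 ≤ h) (hv : h ≤ v) (hvN : v + 1 ≤ N)
    (hcov : Cov S μ k) :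
    (D (h + 3) μ N S v ∩ F (h + 3) μ N S (v - h)).card * 2 ^ (h + 3) ≤
      400 * k * (F (h + 3) μ N S (v - h)).card := by
  classical
  set L : ℕ := 2 ^ (N - (v - h)) with hL
  set X := F (h + 3) μ N S (v - h) with hX
  have h1 : (D (h + 3) μ N S v ∩ X).card ≤
      50 * k * 2 ^ (N - v) * (X.image (fun p => p / L)).card := by
    refine (Finset.card_le_mul_card_image (f := fun p => p / L) (D (h + 3) μ N S v ∩ X)
      (50 * k * 2 ^ (N - v)) ?_).trans ?_
    · intro j _
      refine le_trans (Finset.card_le_card ?_) (count_block h μ N k v S hh hv hvN hcov j)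
      intro p hp
      rw [Finset.mem_filter, Finset.mem_inter] at hp
      exact Finset.mem_filter.2 ⟨hp.1.1, hp.2⟩
    · exact Nat.mul_le_mul_left _ (Finset.card_le_card
        (Finset.image_subset_image Finset.inter_subset_right))
  have h2 : L * (X.image (fun p => p / L)).card ≤ X.card :=
    Finset.mul_card_image_le_card (f := fun p => p / L) X L
      (fun j hj => F_fiber (h + 3) μ N (v - h) S (by omega) j hj)
  have h3 : L = 2 ^ (N - v) * 2 ^ h := by
    rw [hL, ← pow_add]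
    congr 1
    omega
  set I := (X.image (fun p => p / L)).card
  calc (D (h + 3) μ N S v ∩ X).card * 2 ^ (h + 3)
      ≤ 50 * k * 2 ^ (N - v) * I * 2 ^ (h + 3) := Nat.mul_le_mul_right _ h1
    _ = 400 * k * (L * I) := by rw [h3]; ring
    _ ≤ 400 * k * X.card := Nat.mul_le_mul_left _ h2

/-- No multiplier is bad at the first scales. -/
theorem D_empty (h μ N v : ℕ) (S : Finset ℕ) (hvh : v < h) : D (h + 3) μ N S v = ∅ := by
  rw [Finset.eq_empty_iff_forall_notMem]
  intro p hp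
  rw [mem_D] at hp
  obtain ⟨-, p', hp', -, s, -, hs1, hs2, hbad⟩ := hp
  apply hbad
  rw [Th, Finset.mem_Ico] at hp'
  have a1 : 2 ^ (N + μ) ≤ p' * s := by
    calc 2 ^ (N + μ) ≤ 2 ^ ((N + 1) + (μ + v)) := Nat.pow_le_pow_right (by norm_num) (by omega)
      _ = 2 ^ (N + 1) * 2 ^ (μ + v) := by rw [pow_add]
      _ ≤ p' * s := Nat.mul_le_mul hp'.1 hs1
  have a2 : p' * s ≤ 2 ^ (N + 2) * 2 ^ (μ + v + 1) := Nat.mul_le_mul hp'.2.le hs2.le
  have a3 : 2 ^ (N + 2) * 2 ^ (μ + v + 1) ≤ 2 ^ (N + μ + h + 2) := by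
    rw [← pow_add]
    exact Nat.pow_le_pow_right (by norm_num) (by omega)
  have a4 : 2 ^ (N + μ + (h + 3)) = 2 * 2 ^ (N + μ + h + 2) := by
    rw [← pow_succ']
    congr 1
  have a5 : 2 ^ (N + μ) ≤ 2 ^ (N + μ + h + 1) := Nat.pow_le_pow_right (by norm_num) (by omega)
  have a6 : 2 ^ (N + μ + h + 2) = 2 * 2 ^ (N + μ + h + 1) := by
    rw [← pow_succ']
  have a7 : 0 < 2 ^ (N + μ + h + 1) := by positivity
  unfold good
  rw [Nat.mod_eq_of_lt (by omega)]
  omega

theorem ratio (h μ N k : ℕ) (S : Finset ℕ) (hh : 2 ≤ h) (hcov : Cov S μ k)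
    (hk : 1600 * k * (h + 3) ≤ 2 ^ (h + 3)) (v : ℕ) (hvN : v + 1 ≤ N) :
    (1 - 1 / (2 * ((h : ℝ) + 3))) * ((F (h + 3) μ N S v).card : ℝ) ≤
      ((F (h + 3) μ N S (v + 1)).card : ℝ) := by
  classical
  induction v using Nat.strong_induction_on with
  | _ v ih =>
    set γ : ℝ := 1 - 1 / (2 * ((h : ℝ) + 3)) with hγ
    have hh0 : (2 : ℝ) ≤ h := by exact_mod_cast hh
    have hpos : (0 : ℝ) < 2 * ((h : ℝ) + 3) := by positivity
    have hfrac : 1 / (2 * ((h : ℝ) + 3)) ≤ 1 / 10 :=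
      one_div_le_one_div_of_le (by norm_num) (by linarith)
    have hγ1 : γ ≤ 1 := by rw [hγ]; linarith [one_div_pos.2 hpos]
    have hγ0 : 0 ≤ γ := by rw [hγ]; linarith
    have hF : ((F (h + 3) μ N S (v + 1)).card : ℝ) =
        ((F (h + 3) μ N S v).card : ℝ) - ((D (h + 3) μ N S v ∩ F (h + 3) μ N S v).card : ℝ) := by
      have e := Finset.card_sdiff_add_card_inter (F (h + 3) μ N S v) (D (h + 3) μ N S v)
      have e2 : F (h + 3) μ N S (v + 1) = F (h + 3) μ N S v \ D (h + 3) μ N S v := rfl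
      rw [← e2] at e
      rw [Finset.inter_comm]
      have e3 : ((F (h + 3) μ N S (v + 1)).card : ℝ) +
          ((F (h + 3) μ N S v ∩ D (h + 3) μ N S v).card : ℝ) =
          ((F (h + 3) μ N S v).card : ℝ) := by exact_mod_cast e
      linarith
    rcases Nat.lt_or_ge v h with hvh | hvh
    · rw [hF, D_empty h μ N v S hvh]
      rw [Finset.empty_inter, Finset.card_empty]
      have : (0 : ℝ) ≤ ((F (h + 3) μ N S v).card : ℝ) := Nat.cast_nonneg _
      push_cast
      nlinarith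
    · set Xu := F (h + 3) μ N S (v - h) with hXu
      have hc := step_count h μ N k v S hh hvh hvN hcov
      rw [← hXu] at hc
      have hsub : D (h + 3) μ N S v ∩ F (h + 3) μ N S v ⊆ D (h + 3) μ N S v ∩ Xu := by
        apply Finset.inter_subset_inter_left
        have := F_anti (h + 3) μ N S (v - h) h
        rwa [Nat.sub_add_cancel hvh] at this
      have hcard : ((D (h + 3) μ N S v ∩ F (h + 3) μ N S v).card : ℝ) ≤
          ((D (h + 3) μ N S v ∩ Xu).card : ℝ) := by exact_mod_cast Finset.card_le_card hsub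
      -- powers
      have hpow : ∀ d : ℕ, d ≤ h → γ ^ d * (Xu.card : ℝ) ≤
          ((F (h + 3) μ N S (v - h + d)).card : ℝ) := by
        intro d
        induction d with
        | zero => intro _; simp [hXu]
        | succ d ihd =>
          intro hd
          have h1 := ihd (by omega)
          have h2 := ih (v - h + d) (by omega) (by omega)
          calc γ ^ (d + 1) * (Xu.card : ℝ) = γ * (γ ^ d * (Xu.card : ℝ)) := by ring
            _ ≤ γ * ((F (h + 3) μ N S (v - h + d)).card : ℝ) := mul_le_mul_of_nonneg_left h1 hγ0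
            _ ≤ _ := h2
      have hp := hpow h le_rfl
      rw [Nat.sub_add_cancel hvh] at hp
      have hbern : (1 : ℝ) / 2 ≤ γ ^ h := by
        have h1 := one_add_mul_le_pow (a := -(1 / (2 * ((h : ℝ) + 3)))) (by linarith) h
        have h2 : (1 : ℝ) + -(1 / (2 * ((h : ℝ) + 3))) = γ := by rw [hγ]; ring
        rw [h2] at h1
        refine le_trans ?_ h1
        have h3 : (h : ℝ) * (1 / (2 * ((h : ℝ) + 3))) ≤ 1 / 2 := by
          rw [mul_one_div, div_le_div_iff₀ hpos (by norm_num)]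
          linarith
        linarith
      have hXuF : (Xu.card : ℝ) ≤ 2 * ((F (h + 3) μ N S v).card : ℝ) := by
        have h0 : (0 : ℝ) ≤ (Xu.card : ℝ) := Nat.cast_nonneg _
        nlinarith
      have hc' : ((D (h + 3) μ N S v ∩ Xu).card : ℝ) * 2 ^ (h + 3) ≤
          400 * k * (Xu.card : ℝ) := by exact_mod_cast hc
      have hk' : (1600 : ℝ) * k * (h + 3) ≤ 2 ^ (h + 3) := by exact_mod_cast hk
      have hP : (0 : ℝ) < 2 ^ (h + 3) := by positivity
      have hfin : ((D (h + 3) μ N S v ∩ Xu).card : ℝ) ≤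
          1 / (2 * ((h : ℝ) + 3)) * ((F (h + 3) μ N S v).card : ℝ) := by
        have h1 : ((D (h + 3) μ N S v ∩ Xu).card : ℝ) * 2 ^ (h + 3) ≤
            800 * k * ((F (h + 3) μ N S v).card : ℝ) := by
          refine hc'.trans ?_
          have : (0 : ℝ) ≤ 400 * k := by positivity
          nlinarith
        have h2 : (800 : ℝ) * k ≤ 1 / (2 * ((h : ℝ) + 3)) * 2 ^ (h + 3) := by
          rw [one_div, inv_mul_eq_div, le_div_iff₀ hpos]
          linarith
        have h3 : (800 : ℝ) * k * ((F (h + 3) μ N S v).card : ℝ) ≤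
            1 / (2 * ((h : ℝ) + 3)) * 2 ^ (h + 3) * ((F (h + 3) μ N S v).card : ℝ) :=
          mul_le_mul_of_nonneg_right h2 (Nat.cast_nonneg _)
        have h4 : ((D (h + 3) μ N S v ∩ Xu).card : ℝ) * 2 ^ (h + 3) ≤
            (1 / (2 * ((h : ℝ) + 3)) * ((F (h + 3) μ N S v).card : ℝ)) * 2 ^ (h + 3) := by
          refine (h1.trans h3).trans (le_of_eq ?_)
          ring
        exact le_of_mul_le_mul_right h4 hP
      rw [hF, hγ]
      linarith

end Pool.Agent.SCHL
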