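import Mathlib
import Pool.Agent.SCHL.Lac
import Pool.Agent.Helper10.Sch.Avg

/-!
# Sets covered by few intervals in every dyadic interval have large density of difference free sets
-/

set_option autoImplicit false

namespace Pool.Agent.SCHL

open Finset

theorem F_pos (h μ N k : ℕ) (S : Finset ℕ) (hh : 2 ≤ h) (hcov : Cov S μ k)
    (hk : 1600 * k * (h + 3) ≤ 2 ^ (h + 3)) (v : ℕ) (hv : v ≤ N) :
    0 < (F (h + 3) μ N S v).card := by
  induction v with
  | zero =>
    have : (F (h + 3) μ N S 0) = Finset.Ico (2 ^ (N + 1)) (2 ^ (N + 2)) := rfl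
    rw [this, Nat.card_Ico]
    have : 2 ^ (N + 1) < 2 ^ (N + 2) := Nat.pow_lt_pow_right (by norm_num) (by omega)
    omega
  | succ v ih =>
    have h1 := ih (by omega)
    have h2 := ratio h μ N k S hh hcov hk v hv
    have h3 : (0 : ℝ) < ((F (h + 3) μ N S v).card : ℝ) := by exact_mod_cast h1
    have hh0 : (2 : ℝ) ≤ h := by exact_mod_cast hh
    have hfrac : 1 / (2 * ((h : ℝ) + 3)) ≤ 1 / 10 :=
      one_div_le_one_div_of_le (by norm_num) (by linarith)
    have h4 : (0 : ℝ) < (1 - 1 / (2 * ((h : ℝ) + 3))) * ((F (h + 3) μ N S v).card : ℝ) :=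
      mul_pos (by linarith) h3
    exact_mod_cast lt_of_lt_of_le h4 h2

theorem exists_mult (h μ k : ℕ) (S : Finset ℕ) (hh : 2 ≤ h) (hcov : Cov S μ k)
    (hk : 1600 * k * (h + 3) ≤ 2 ^ (h + 3)) (hS : ∀ s ∈ S, 2 ^ μ ≤ s) :
    ∃ Q W p : ℕ, 0 < W ∧ Q = 2 ^ (h + 3) * W ∧ ∀ s ∈ S, good Q W p s := by
  set N := 1 + S.sup id with hN
  obtain ⟨p, hp⟩ := Finset.card_pos.1 (F_pos h μ N k S hh hcov hk N le_rfl)
  refine ⟨2 ^ (N + μ + (h + 3)), 2 ^ (N + μ), p, by positivity, ?_, ?_⟩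
  · rw [← pow_add]; congr 1; omega
  intro s hs
  have hs1 := hS s hs
  have hs0 : s ≠ 0 := by
    have : 0 < 2 ^ μ := by positivity
    omega
  have hsN : s < 2 ^ (μ + N) := by
    have h1 : s ≤ S.sup id := Finset.le_sup (f := id) hs
    calc s < 2 ^ s := Nat.lt_two_pow_self
      _ ≤ 2 ^ (μ + N) := Nat.pow_le_pow_right (by norm_num) (by omega)
  set l := Nat.log 2 s with hl
  have hl1 : 2 ^ l ≤ s := Nat.pow_log_le_self 2 hs0
  have hl2 : s < 2 ^ (l + 1) := Nat.lt_pow_succ_log_self (by norm_num) s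
  have hμl : μ ≤ l := by
    have : 2 ^ μ < 2 ^ (l + 1) := lt_of_le_of_lt hs1 hl2
    have := (Nat.pow_lt_pow_iff_right (a := 2) (by norm_num)).1 this
    omega
  obtain ⟨v, hv⟩ := Nat.exists_eq_add_of_le hμl
  have hvN : v < N := by
    have : 2 ^ l < 2 ^ (μ + N) := lt_of_le_of_lt hl1 hsN
    have := (Nat.pow_lt_pow_iff_right (a := 2) (by norm_num)).1 this
    omega
  rw [hv] at hl1 hl2
  have hpv : p ∈ F (h + 3) μ N S (v + 1) := by
    obtain ⟨d, hd⟩ := Nat.exists_eq_add_of_le (show v + 1 ≤ N by omega)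
    have := F_anti (h + 3) μ N S (v + 1) d
    rw [← hd] at this
    exact this hp
  have hpD : p ∉ D (h + 3) μ N S v := by
    have e : F (h + 3) μ N S (v + 1) = F (h + 3) μ N S v \ D (h + 3) μ N S v := rfl
    rw [e, Finset.mem_sdiff] at hpv
    exact hpv.2
  by_contra hg
  apply hpD
  rw [mem_D]
  have hpT : p ∈ Th N := F_sub _ _ _ _ _ hp
  exact ⟨hpT, p, hpT, rfl, s, hs, hl1, hl2, hg⟩

theorem card_shift (Q W x : ℕ) (hWQ : W ≤ Q) (hQ : 0 < Q) :
    W ≤ ((Finset.range Q).filter (fun φ => (x + φ) % Q < W)).card := by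
  have key : ∀ w < W, (x + (w + (Q - x % Q)) % Q) % Q = w := by
    intro w hw
    rw [Nat.add_mod_mod]
    have e1 := Nat.div_add_mod x Q
    have e2 := Nat.mod_lt x hQ
    have e3 : x + (w + (Q - x % Q)) = w + Q * (x / Q + 1) := by
      rw [Nat.mul_add, Nat.mul_one]
      omega
    rw [e3, Nat.add_mul_mod_self_left, Nat.mod_eq_of_lt (by omega)]
  have h := Finset.card_le_card_of_injOn (s := Finset.range W)
    (t := (Finset.range Q).filter (fun φ => (x + φ) % Q < W))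
    (fun w => (w + (Q - x % Q)) % Q) ?_ ?_
  · rwa [Finset.card_range] at h
  · intro w hw
    have hw' : w < W := by simpa using hw
    simp only [Finset.coe_filter, Finset.mem_range, Set.mem_setOf_eq]
    refine ⟨Nat.mod_lt _ hQ, ?_⟩
    rw [key w hw']
    exact hw'
  · intro w hw w' hw' hww
    have h1 : w < W := by simpa using hw
    have h2 : w' < W := by simpa using hw'
    have a1 := key w h1
    have a2 := key w' h2
    simp only at hww
    rw [hww] at a1
    omega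

theorem exists_shift (Q W p L : ℕ) (hW : 0 < W) (hWQ : W ≤ Q) :
    ∃ φ : ℕ, L * W ≤ Q * ((Finset.range L).filter (fun n => (p * n + φ) % Q < W)).card := by
  have hQ : 0 < Q := by omega
  by_contra hcon
  push Not at hcon
  have h1 : ∑ φ ∈ Finset.range Q,
      Q * ((Finset.range L).filter (fun n => (p * n + φ) % Q < W)).card <
      ∑ _φ ∈ Finset.range Q, L * W :=
    Finset.sum_lt_sum_of_nonempty (by simpa using hQ.ne') (fun φ _ => hcon φ)
  have h2 : ∑ φ ∈ Finset.range Q, ((Finset.range L).filter (fun n => (p * n + φ) % Q < W)).card =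
      ∑ n ∈ Finset.range L, ((Finset.range Q).filter (fun φ => (p * n + φ) % Q < W)).card := by
    simp only [Finset.card_filter]
    exact Finset.sum_comm
  have h3 : L * W ≤
      ∑ n ∈ Finset.range L, ((Finset.range Q).filter (fun φ => (p * n + φ) % Q < W)).card := by
    calc L * W = ∑ _n ∈ Finset.range L, W := by simp
      _ ≤ _ := Finset.sum_le_sum (fun n _ => card_shift Q W (p * n) hWQ hQ)
  rw [← Finset.mul_sum, h2] at h1
  simp only [Finset.sum_const, Finset.card_range, smul_eq_mul] at h1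
  have := lt_of_mul_lt_mul_left h1 (Nat.zero_le Q)
  omega

/-- The class `S` meets every interval `[x, 2 x)` inside at most `k` intervals of length at most
`min S`. -/
def FewIntervals (S : Finset ℤ) (k : ℕ) : Prop :=
  ∃ m : ℤ, 1 ≤ m ∧ (∀ s ∈ S, m ≤ s) ∧ ∀ x : ℤ, ∃ A : Finset ℤ, A.card ≤ k ∧
    ∀ s ∈ S, x ≤ s → s < 2 * x → ∃ a ∈ A, a ≤ s ∧ s < a + m

theorem dense_few (S : Finset ℤ) (k h : ℕ) (hS : FewIntervals S k) (hh : 2 ≤ h)
    (hk : 1600 * k * (h + 3) ≤ 2 ^ (h + 3)) :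
    Pool.Agent.Helper10.Sch.Dense S (2 ^ (h + 3)) := by
  classical
  obtain ⟨m, hm1, hmS, hA⟩ := hS
  set μ := Nat.log 2 m.toNat with hμ
  have hm0 : m.toNat ≠ 0 := by omega
  have hμ1 : 2 ^ μ ≤ m.toNat := Nat.pow_log_le_self 2 hm0
  have hμ2 : m.toNat < 2 ^ (μ + 1) := Nat.lt_pow_succ_log_self (by norm_num) _
  set S' : Finset ℕ := S.image Int.toNat with hS'
  have hcov : Cov S' μ k := by
    refine ⟨m.toNat, hμ2, fun v => ?_⟩
    obtain ⟨A, hAk, hA⟩ := hA ((2 ^ (μ + v) : ℕ) : ℤ)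
    refine ⟨A.image Int.toNat, (Finset.card_image_le).trans hAk, ?_⟩
    intro s hs hs1 hs2
    obtain ⟨t, ht, rfl⟩ := Finset.mem_image.1 hs
    have ht1 := hmS t ht
    have ht2 : ((2 ^ (μ + v) : ℕ) : ℤ) ≤ t := by omega
    have ht3 : t < 2 * ((2 ^ (μ + v) : ℕ) : ℤ) := by
      have : 2 ^ (μ + v + 1) = 2 * 2 ^ (μ + v) := by ring
      omega
    obtain ⟨a, haA, ha1, ha2⟩ := hA t ht ht2 ht3
    refine ⟨a.toNat, Finset.mem_image_of_mem _ haA, by omega, by omega⟩
  have hS2 : ∀ s ∈ S', 2 ^ μ ≤ s := by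
    intro s hs
    obtain ⟨t, ht, rfl⟩ := Finset.mem_image.1 hs
    have ht1 := hmS t ht
    omega
  obtain ⟨Q, W, p, hW, hQ, hgood⟩ := exists_mult h μ k S' hh hcov hk hS2
  have hWQ : W ≤ Q := by
    rw [hQ]
    exact Nat.le_mul_of_pos_left _ (by positivity)
  have hQ0 : 0 < Q := by omega
  refine ⟨0, fun L => ?_⟩
  obtain ⟨φ, hφ⟩ := exists_shift Q W p L hW hWQ
  set B0 := (Finset.range L).filter (fun n => (p * n + φ) % Q < W) with hB0
  refine ⟨B0.image (fun n : ℕ => (n : ℤ)), ?_, ?_, ?_⟩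
  · intro b hb
    obtain ⟨n, hn, rfl⟩ := Finset.mem_image.1 hb
    have := Finset.mem_range.1 (Finset.mem_filter.1 hn).1
    push_cast
    omega
  · intro b hb e he hbe
    obtain ⟨n, hn, rfl⟩ := Finset.mem_image.1 hb
    obtain ⟨n', hn', rfl⟩ := Finset.mem_image.1 he
    have h1 := (Finset.mem_filter.1 hn).2
    have h2 := (Finset.mem_filter.1 hn').2
    set s : ℤ := (n : ℤ) - n' with hs
    have hs1 := hmS s hbe
    have hn2 : n = n' + s.toNat := by omega
    have hg := hgood s.toNat (Finset.mem_image_of_mem _ hbe)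
    unfold good at hg
    have e1 : p * n + φ = (p * n' + φ) + p * s.toNat := by rw [hn2]; ring
    rw [e1, Nat.add_mod, Nat.mod_eq_of_lt (by omega)] at h1
    omega
  · rw [Finset.card_image_of_injective _ (fun a b h => by exact_mod_cast h)]
    rw [hQ] at hφ
    have h3 : L * W ≤ (2 ^ (h + 3) * B0.card) * W := by
      calc L * W ≤ 2 ^ (h + 3) * W * B0.card := hφ
        _ = _ := by ring
    have h4 : L ≤ 2 ^ (h + 3) * B0.card := Nat.le_of_mul_le_mul_right h3 hW
    exact_mod_cast h4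

theorem exists_h (k : ℕ) (hk : 1 ≤ k) : ∃ h : ℕ, 2 ≤ h ∧ 1600 * k * (h + 3) ≤ 2 ^ (h + 3) ∧
    ((2 : ℝ) ^ (h + 3)) ≤ 10 ^ 6 * k * Real.log (2 * k) := by
  set y := Nat.clog 2 (2 * k) with hy
  set z := Nat.clog 2 y with hz
  have hy1 : 1 ≤ y := Nat.clog_pos (by norm_num) (by omega)
  have hy2 : 2 * k ≤ 2 ^ y := Nat.le_pow_clog (by norm_num) _
  have hy3 : 2 ^ (y - 1) < 2 * k := Nat.pow_pred_clog_lt_self (by norm_num) (by omega)
  have hy4 : 2 ^ y = 2 * 2 ^ (y - 1) := by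
    rw [← pow_succ']
    congr 1
    omega
  have hz1 : y ≤ 2 ^ z := Nat.le_pow_clog (by norm_num) _
  have hz2 : 2 ^ z ≤ 2 * y := by
    rcases Nat.lt_or_ge 1 y with h | h
    · have h1 : 2 ^ (z - 1) < y := Nat.pow_pred_clog_lt_self (by norm_num) h
      have h2 : 1 ≤ z := Nat.clog_pos (by norm_num) h
      have h3 : 2 ^ z = 2 * 2 ^ (z - 1) := by
        rw [← pow_succ']
        congr 1
        omega
      omega
    · have h1 : y = 1 := by omega
      have h2 : z = 0 := by rw [hz, h1]; simp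
      rw [h2, h1]
      norm_num
  have hz3 : z ≤ y := by
    have h1 : y ≤ 2 ^ y := Nat.lt_two_pow_self.le
    exact (Nat.clog_le_iff_le_pow (by norm_num)).2 h1
  have e : y + z + 12 + 3 = 15 + y + z := by omega
  have e2 : 2 ^ (15 + y + z) = 32768 * 2 ^ y * 2 ^ z := by rw [pow_add, pow_add]; norm_num
  refine ⟨y + z + 12, by omega, ?_, ?_⟩
  · rw [e, e2]
    have h1 : 15 + y + z ≤ 17 * y := by omega
    calc 1600 * k * (15 + y + z) ≤ 1600 * k * (17 * y) := Nat.mul_le_mul_left _ h1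
      _ ≤ 32768 * (2 * k) * y := by nlinarith [Nat.zero_le (k * y)]
      _ ≤ 32768 * 2 ^ y * 2 ^ z :=
        Nat.mul_le_mul (Nat.mul_le_mul_left _ hy2) hz1
  · rw [e]
    have h1 : (2 : ℝ) ^ (15 + y + z) ≤ 262144 * k * y := by
      have : 2 ^ (15 + y + z) ≤ 262144 * k * y := by
        rw [e2]
        calc 32768 * 2 ^ y * 2 ^ z ≤ 32768 * (4 * k) * (2 * y) :=
              Nat.mul_le_mul (Nat.mul_le_mul_left _ (by omega)) hz2
          _ = 262144 * k * y := by ring
      exact_mod_cast this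
    have hk0 : (1 : ℝ) ≤ k := by exact_mod_cast hk
    have h2 : (y : ℝ) ≤ 3 * Real.log (2 * k) := by
      have h3 : (2 : ℝ) ^ y ≤ (2 * k) ^ 2 := by
        have : 2 ^ y ≤ (2 * k) ^ 2 := by nlinarith
        exact_mod_cast this
      have h4 := Real.log_le_log (by positivity) h3
      rw [Real.log_pow, Real.log_pow] at h4
      have h5 := Real.log_two_gt_d9
      push_cast at h4
      have h6 : (0 : ℝ) ≤ y := Nat.cast_nonneg _
      nlinarith
    have h7 : 0 ≤ Real.log (2 * k) := Real.log_nonneg (by linarith)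
    calc (2 : ℝ) ^ (15 + y + z) ≤ 262144 * k * y := h1
      _ ≤ 262144 * k * (3 * Real.log (2 * k)) := mul_le_mul_of_nonneg_left h2 (by positivity)
      _ ≤ 10 ^ 6 * k * Real.log (2 * k) := by
        have : 0 ≤ (k : ℝ) * Real.log (2 * k) := mul_nonneg (by linarith) h7
        nlinarith

theorem dense_few' (S : Finset ℤ) (k : ℕ) (hS : FewIntervals S k) (hk : 1 ≤ k) :
    Pool.Agent.Helper10.Sch.Dense S (10 ^ 6 * k * Real.log (2 * k)) := by
  obtain ⟨h, hh, h1, h2⟩ := exists_h k hk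
  obtain ⟨M, hM⟩ := dense_few S k h hS hh h1
  refine ⟨M, fun L => ?_⟩
  obtain ⟨B, b1, b2, b3⟩ := hM L
  exact ⟨B, b1, b2, b3.trans (mul_le_mul_of_nonneg_right h2 (Nat.cast_nonneg _))⟩

end Pool.Agent.SCHL
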