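import Mathlib
import Pool.Agent.SCHL.Den

/-!
# Multipliers for sets covered by few intervals in long windows of dyadic blocks
-/

set_option autoImplicit false

namespace Pool.Agent.SCHL

open Finset

/-- `S` in the dyadic block `v` is covered by `k` intervals of length `m`. -/
def CovB (S : Finset ℕ) (m μ v k : ℕ) : Prop :=
  ∃ A : Finset ℕ, A.card ≤ k ∧
    ∀ s ∈ S, 2 ^ (μ + v) ≤ s → s < 2 ^ (μ + v + 1) → ∃ a ∈ A, a ≤ s ∧ s < a + m

theorem count_block2 (h m μ N k v : ℕ) (S : Finset ℕ) (hh : 2 ≤ h) (hv : h ≤ v) (hvN : v + 1 ≤ N)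
    (hm : m < 2 ^ (μ + 1)) (hcov : CovB S m μ v k) (j : ℕ) :
    ((D (h + 3) μ N S v).filter (fun p => p / 2 ^ (N - (v - h)) = j)).card ≤
      50 * k * 2 ^ (N - v) := by
  classical
  obtain ⟨A, hAk, hA⟩ := hcov
  set L : ℕ := 2 ^ (N - (v - h)) with hL
  have hLpos : 0 < L := by positivity
  set W : ℕ := 2 ^ (N + μ) with hW
  set Q : ℕ := 2 ^ (N + μ + (h + 3)) with hQ
  have hQpos : 0 < Q := by positivity
  set A' := A.filter (fun a => 2 ^ (μ + v - 1) ≤ a ∧ a < 2 ^ (μ + v + 1)) with hA'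
  have hsub : (D (h + 3) μ N S v).filter (fun p => p / L = j) ⊆
      A'.biUnion (fun a => (Finset.Ico (j * L) (j * L + L)).filter
        (fun p => (p * a + 10 * W) % Q < 12 * W)) := by
    intro p hp
    rw [Finset.mem_filter, mem_D] at hp
    obtain ⟨⟨-, p', hp', hpp, s, hsS, hs1, hs2, hbad⟩, hpj⟩ := hp
    obtain ⟨a, haA, has, hsa⟩ := hA s hsS hs1 hs2
    rw [Finset.mem_biUnion]
    refine ⟨a, ?_, ?_⟩
    · rw [hA', Finset.mem_filter]
      refine ⟨haA, ?_, by omega⟩
      have h1 : 2 ^ (μ + v) = 2 * 2 ^ (μ + v - 1) := by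
        rw [← pow_succ']
        congr 1
        omega
      have h2 : 2 ^ (μ + 1) ≤ 2 ^ (μ + v - 1) := Nat.pow_le_pow_right (by norm_num) (by omega)
      omega
    · rw [Finset.mem_filter, Finset.mem_Ico]
      refine ⟨?_, bad_arc (h + 3) μ N v (by omega) hvN p p' a s m hp' hpp has hsa hm hs2 hbad⟩
      have e1 := Nat.div_add_mod p L
      have e2 := Nat.mod_lt p hLpos
      rw [hpj, mul_comm] at e1
      omega
  refine (Finset.card_le_card hsub).trans ?_
  refine (Finset.card_biUnion_le_card_mul A' _ (50 * 2 ^ (N - v)) ?_).trans ?_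
  · intro a ha
    rw [hA', Finset.mem_filter] at ha
    obtain ⟨-, ha1, ha2⟩ := ha
    have hapos : 0 < a := lt_of_lt_of_le (by positivity) ha1
    have hLa : L * a ≤ Q := by
      calc L * a ≤ 2 ^ (N - (v - h)) * 2 ^ (μ + v + 1) := Nat.mul_le_mul_left _ ha2.le
        _ = 2 ^ (N - (v - h) + (μ + v + 1)) := by rw [← pow_add]
        _ ≤ Q := Nat.pow_le_pow_right (by norm_num) (by omega)
    have h1 := count_arc a (10 * W) Q (12 * W) L j hapos hLa hQpos
    have h2 : 12 * W / a ≤ 24 * 2 ^ (N - v) := by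
      calc 12 * W / a ≤ 12 * W / 2 ^ (μ + v - 1) := Nat.div_le_div_left ha1 (by positivity)
        _ = 24 * 2 ^ (N - v) := by
          apply Nat.div_eq_of_eq_mul_left (by positivity)
          have : W = 2 * (2 ^ (N - v) * 2 ^ (μ + v - 1)) := by
            rw [← pow_add, ← pow_succ', hW]
            congr 1
            omega
          rw [this]
          ring
    have h3 : 1 ≤ 2 ^ (N - v) := Nat.one_le_two_pow
    generalize 12 * W / a = y at h1 h2
    omega
  · have h4 : A'.card ≤ k := (Finset.card_filter_le _ _).trans hAk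
    calc A'.card * (50 * 2 ^ (N - v)) ≤ k * (50 * 2 ^ (N - v)) := Nat.mul_le_mul_right _ h4
      _ = 50 * k * 2 ^ (N - v) := by ring

theorem step_count2 (h m μ N k v : ℕ) (S : Finset ℕ) (hh : 2 ≤ h) (hv : h ≤ v) (hvN : v + 1 ≤ N)
    (hm : m < 2 ^ (μ + 1)) (hcov : CovB S m μ v k) :
    (D (h + 3) μ N S v ∩ F (h + 3) μ N S (v - h)).card * 2 ^ (h + 3) ≤
      400 * k * (F (h + 3) μ N S (v - h)).card := by
  classical
  set L : ℕ := 2 ^ (N - (v - h)) with hL
  set X := F (h + 3) μ N S (v - h) with hX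
  have h1 : (D (h + 3) μ N S v ∩ X).card ≤
      50 * k * 2 ^ (N - v) * (X.image (fun p => p / L)).card := by
    refine (Finset.card_le_mul_card_image (f := fun p => p / L) (D (h + 3) μ N S v ∩ X)
      (50 * k * 2 ^ (N - v)) ?_).trans ?_
    · intro j _
      refine le_trans (Finset.card_le_card ?_) (count_block2 h m μ N k v S hh hv hvN hm hcov j)
      intro p hp
      rw [Finset.mem_filter, Finset.mem_inter] at hp
      exact Finset.mem_filter.2 ⟨hp.1.1, hp.2⟩
    · exact Nat.mul_le_mul_left _ (Finset.card_le_card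
        (Finset.image_subset_image Finset.inter_subset_right))
  have h2 : L * (X.image (fun p => p / L)).card ≤ X.card :=
    Finset.mul_card_image_le_card (f := fun p => p / L) X L
      (fun j hj => F_fiber (h + 3) μ N (v - h) S (by omega) j hj)
  have h3 : L = 2 ^ (N - v) * 2 ^ h := by
    rw [hL, ← pow_add]
    congr 1
    omega
  set I := (X.image (fun p => p / L)).card
  calc (D (h + 3) μ N S v ∩ X).card * 2 ^ (h + 3)
      ≤ 50 * k * 2 ^ (N - v) * I * 2 ^ (h + 3) := Nat.mul_le_mul_right _ h1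
    _ = 400 * k * (L * I) := by rw [h3]; ring
    _ ≤ 400 * k * X.card := Nat.mul_le_mul_left _ h2

theorem seq_lower (f c : ℕ → ℝ) (h N : ℕ) (hf : ∀ v, 0 ≤ f v) (hc : ∀ v, 0 ≤ c v)
    (hc1 : ∀ v, 2 * c v ≤ 1 / 2) (hinit : ∀ v, v < h → v < N → f (v + 1) = f v)
    (hstep : ∀ v, h ≤ v → v < N → f v - c v * f (v - h) ≤ f (v + 1))
    (hwin : ∀ u, ∑ w ∈ Finset.range h, 2 * c (u + w) ≤ 1 / 2) (v : ℕ) (hv : v < N) :
    (1 - 2 * c v) * f v ≤ f (v + 1) := by
  induction v using Nat.strong_induction_on with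
  | _ v ih =>
    rcases Nat.lt_or_ge v h with hvh | hvh
    · rw [hinit v hvh hv]
      nlinarith [hf v, hc v, mul_nonneg (hc v) (hf v)]
    · have key : ∀ d : ℕ, d ≤ h → (1 - ∑ w ∈ Finset.range d, 2 * c (v - h + w)) * f (v - h) ≤
          f (v - h + d) := by
        intro d
        induction d with
        | zero => intro _; simp
        | succ d ihd =>
          intro hd
          have h1 := ihd (by omega)
          have h2 := ih (v - h + d) (by omega) (by omega)
          rw [Finset.sum_range_succ]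
          set σ := ∑ w ∈ Finset.range d, 2 * c (v - h + w) with hσ
          have hσ0 : 0 ≤ σ := Finset.sum_nonneg (fun w _ => by linarith [hc (v - h + w)])
          have hc0 := hc (v - h + d)
          have hc2 := hc1 (v - h + d)
          set x := c (v - h + d)
          have h3 : (1 - 2 * x) * ((1 - σ) * f (v - h)) ≤ (1 - 2 * x) * f (v - h + d) :=
            mul_le_mul_of_nonneg_left h1 (by linarith)
          have h4 : 0 ≤ 2 * x * σ * f (v - h) :=
            mul_nonneg (mul_nonneg (by linarith) hσ0) (hf _)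
          have h5 : v - h + (d + 1) = v - h + d + 1 := by omega
          rw [h5]
          nlinarith
      have h1 := key h le_rfl
      rw [Nat.sub_add_cancel hvh] at h1
      have h2 := hwin (v - h)
      have h3 := hstep v hvh hv
      have h4 := hf (v - h)
      have h5 : f (v - h) ≤ 2 * f v := by nlinarith
      have h6 : c v * f (v - h) ≤ c v * (2 * f v) := mul_le_mul_of_nonneg_left h5 (hc v)
      nlinarith

theorem F_pos2 (h m μ N : ℕ) (S : Finset ℕ) (hh : 2 ≤ h) (hm : m < 2 ^ (μ + 1)) (k : ℕ → ℕ)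
    (hcov : ∀ v, CovB S m μ v (k v))
    (hwin : ∀ u, 1600 * ∑ w ∈ Finset.range h, k (u + w) ≤ 2 ^ (h + 3)) (v : ℕ) (hv : v ≤ N) :
    0 < (F (h + 3) μ N S v).card := by
  classical
  set f : ℕ → ℝ := fun v => ((F (h + 3) μ N S v).card : ℝ) with hf
  set c : ℕ → ℝ := fun v => 400 * (k v : ℝ) / 2 ^ (h + 3) with hc
  have hP : (0 : ℝ) < 2 ^ (h + 3) := by positivity
  have hwin' : ∀ u, ∑ w ∈ Finset.range h, 2 * c (u + w) ≤ 1 / 2 := by
    intro u
    have h1 : ((1600 * ∑ w ∈ Finset.range h, k (u + w) : ℕ) : ℝ) ≤ 2 ^ (h + 3) := by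
      exact_mod_cast hwin u
    have h2 : ∑ w ∈ Finset.range h, 2 * c (u + w) =
        (800 / 2 ^ (h + 3)) * ∑ w ∈ Finset.range h, (k (u + w) : ℝ) := by
      rw [Finset.mul_sum]
      refine Finset.sum_congr rfl (fun w _ => ?_)
      simp only [hc]
      ring
    rw [h2, div_mul_eq_mul_div, div_le_iff₀ hP]
    push_cast at h1
    linarith
  have hc0 : ∀ v, 0 ≤ c v := fun v => by simp only [hc]; positivity
  have hc1 : ∀ v, 2 * c v ≤ 1 / 2 := by
    intro v
    refine le_trans ?_ (hwin' v)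
    have := Finset.single_le_sum (f := fun w => 2 * c (v + w)) (s := Finset.range h)
      (fun w _ => by have := hc0 (v + w); linarith) (Finset.mem_range.2 (show 0 < h by omega))
    simpa using this
  have hmain := seq_lower f c h N (fun v => Nat.cast_nonneg _) hc0 hc1 ?_ ?_ hwin'
  · induction v with
    | zero =>
      have : (F (h + 3) μ N S 0) = Finset.Ico (2 ^ (N + 1)) (2 ^ (N + 2)) := rfl
      rw [this, Nat.card_Ico]
      have : 2 ^ (N + 1) < 2 ^ (N + 2) := Nat.pow_lt_pow_right (by norm_num) (by omega)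
      omega
    | succ v ih =>
      have h1 := ih (by omega)
      have h2 := hmain v (by omega)
      have h3 : (0 : ℝ) < f v := by simp only [hf]; exact_mod_cast h1
      have h4 := hc1 v
      have h5 : (0 : ℝ) < f (v + 1) := lt_of_lt_of_le (mul_pos (by linarith) h3) h2
      simp only [hf] at h5
      exact_mod_cast h5
  · intro v hvh hvN
    simp only [hf]
    have e2 : F (h + 3) μ N S (v + 1) = F (h + 3) μ N S v \ D (h + 3) μ N S v := rfl
    rw [e2, D_empty h μ N v S hvh, Finset.sdiff_empty]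
  · intro v hvh hvN
    have hc' := step_count2 h m μ N (k v) v S hh hvh (by omega) hm (hcov v)
    have hF : ((F (h + 3) μ N S (v + 1)).card : ℝ) =
        ((F (h + 3) μ N S v).card : ℝ) - ((D (h + 3) μ N S v ∩ F (h + 3) μ N S v).card : ℝ) := by
      have e := Finset.card_sdiff_add_card_inter (F (h + 3) μ N S v) (D (h + 3) μ N S v)
      have e2 : F (h + 3) μ N S (v + 1) = F (h + 3) μ N S v \ D (h + 3) μ N S v := rfl
      rw [← e2] at e
      rw [Finset.inter_comm]
      have e3 : ((F (h + 3) μ N S (v + 1)).card : ℝ) +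
          ((F (h + 3) μ N S v ∩ D (h + 3) μ N S v).card : ℝ) =
          ((F (h + 3) μ N S v).card : ℝ) := by exact_mod_cast e
      linarith
    have hsub : D (h + 3) μ N S v ∩ F (h + 3) μ N S v ⊆
        D (h + 3) μ N S v ∩ F (h + 3) μ N S (v - h) := by
      apply Finset.inter_subset_inter_left
      have := F_anti (h + 3) μ N S (v - h) h
      rwa [Nat.sub_add_cancel hvh] at this
    have hcard : ((D (h + 3) μ N S v ∩ F (h + 3) μ N S v).card : ℝ) ≤
        ((D (h + 3) μ N S v ∩ F (h + 3) μ N S (v - h)).card : ℝ) := by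
      exact_mod_cast Finset.card_le_card hsub
    have hc2 : ((D (h + 3) μ N S v ∩ F (h + 3) μ N S (v - h)).card : ℝ) * 2 ^ (h + 3) ≤
        400 * (k v : ℝ) * ((F (h + 3) μ N S (v - h)).card : ℝ) := by exact_mod_cast hc'
    have hc3 : ((D (h + 3) μ N S v ∩ F (h + 3) μ N S (v - h)).card : ℝ) ≤
        c v * ((F (h + 3) μ N S (v - h)).card : ℝ) := by
      simp only [hc]
      rw [div_mul_eq_mul_div, le_div_iff₀ hP]
      exact hc2
    simp only [hf]
    rw [hF]
    linarith

theorem exists_mult2 (h m μ : ℕ) (S : Finset ℕ) (hh : 2 ≤ h) (hm : m < 2 ^ (μ + 1)) (k : ℕ → ℕ)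
    (hcov : ∀ v, CovB S m μ v (k v))
    (hwin : ∀ u, 1600 * ∑ w ∈ Finset.range h, k (u + w) ≤ 2 ^ (h + 3))
    (hS : ∀ s ∈ S, 2 ^ μ ≤ s) :
    ∃ Q W p : ℕ, 0 < W ∧ Q = 2 ^ (h + 3) * W ∧ ∀ s ∈ S, good Q W p s := by
  set N := 1 + S.sup id with hN
  obtain ⟨p, hp⟩ := Finset.card_pos.1 (F_pos2 h m μ N S hh hm k hcov hwin N le_rfl)
  refine ⟨2 ^ (N + μ + (h + 3)), 2 ^ (N + μ), p, by positivity, ?_, ?_⟩
  · rw [← pow_add]; congr 1; omega
  intro s hs
  have hs1 := hS s hs
  have hs0 : s ≠ 0 := by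
    have : 0 < 2 ^ μ := by positivity
    omega
  have hsN : s < 2 ^ (μ + N) := by
    have h1 : s ≤ S.sup id := Finset.le_sup (f := id) hs
    calc s < 2 ^ s := Nat.lt_two_pow_self
      _ ≤ 2 ^ (μ + N) := Nat.pow_le_pow_right (by norm_num) (by omega)
  set l := Nat.log 2 s with hl
  have hl1 : 2 ^ l ≤ s := Nat.pow_log_le_self 2 hs0
  have hl2 : s < 2 ^ (l + 1) := Nat.lt_pow_succ_log_self (by norm_num) s
  have hμl : μ ≤ l := by
    have : 2 ^ μ < 2 ^ (l + 1) := lt_of_le_of_lt hs1 hl2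
    have := (Nat.pow_lt_pow_iff_right (a := 2) (by norm_num)).1 this
    omega
  obtain ⟨v, hv⟩ := Nat.exists_eq_add_of_le hμl
  have hvN : v < N := by
    have : 2 ^ l < 2 ^ (μ + N) := lt_of_le_of_lt hl1 hsN
    have := (Nat.pow_lt_pow_iff_right (a := 2) (by norm_num)).1 this
    omega
  rw [hv] at hl1 hl2
  have hpv : p ∈ F (h + 3) μ N S (v + 1) := by
    obtain ⟨d, hd⟩ := Nat.exists_eq_add_of_le (show v + 1 ≤ N by omega)
    have := F_anti (h + 3) μ N S (v + 1) d
    rw [← hd] at this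
    exact this hp
  have hpD : p ∉ D (h + 3) μ N S v := by
    have e : F (h + 3) μ N S (v + 1) = F (h + 3) μ N S v \ D (h + 3) μ N S v := rfl
    rw [e, Finset.mem_sdiff] at hpv
    exact hpv.2
  by_contra hg
  apply hpD
  rw [mem_D]
  have hpT : p ∈ Th N := F_sub _ _ _ _ _ hp
  exact ⟨hpT, p, hpT, rfl, s, hs, hl1, hl2, hg⟩

end Pool.Agent.SCHL
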