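import Mathlib
import Pool.Agent.SCHL.Win

/-!
# Sets covered by few intervals in long windows: the density of difference free sets
-/

set_option autoImplicit false

namespace Pool.Agent.SCHL

open Finset

/-- For some `m ≤ min S` and every `x`, the elements of `S` in `[x, 2 K x)` are covered by at most `K`
intervals of `m` consecutive integers. -/
def FewI (S : Finset ℤ) (K : ℕ) : Prop :=
  ∃ m : ℤ, 1 ≤ m ∧ (∀ s ∈ S, m ≤ s) ∧ ∀ x : ℤ, ∃ A : Finset ℤ, A.card ≤ K ∧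
    ∀ s ∈ S, x ≤ s → s < 2 * K * x → ∃ a ∈ A, a ≤ s ∧ s < a + m

theorem two_blocks (m μ t u a : ℕ) (hm : m < 2 ^ (μ + 1)) :
    ((Finset.range t).filter
      (fun w => a < 2 ^ (μ + (u + w) + 1) ∧ 2 ^ (μ + (u + w)) < a + m)).card ≤ 2 := by
  classical
  set G := (Finset.range t).filter
      (fun w => a < 2 ^ (μ + (u + w) + 1) ∧ 2 ^ (μ + (u + w)) < a + m) with hG
  rcases G.eq_empty_or_nonempty with h | h
  · rw [h]; simp
  · set w0 := G.min' h with hw0
    have h0 : w0 ∈ G := G.min'_mem h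
    have hsub : G ⊆ {w0, w0 + 1} := by
      intro w hw
      have h1 : w0 ≤ w := G.min'_le w hw
      rw [Finset.mem_insert, Finset.mem_singleton]
      by_contra hcon
      push Not at hcon
      have h2 : w0 + 2 ≤ w := by omega
      have h3 : a < 2 ^ (μ + (u + w0) + 1) := (Finset.mem_filter.1 h0).2.1
      have h4 : 2 ^ (μ + (u + w)) < a + m := (Finset.mem_filter.1 hw).2.2
      have h5 : 2 ^ (μ + (u + w0) + 2) ≤ 2 ^ (μ + (u + w)) :=
        Nat.pow_le_pow_right (by norm_num) (by omega)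
      have h6 : 2 ^ (μ + (u + w0) + 2) = 2 * 2 ^ (μ + (u + w0) + 1) := by ring
      have h7 : 2 ^ (μ + 1) ≤ 2 ^ (μ + (u + w0) + 1) :=
        Nat.pow_le_pow_right (by norm_num) (by omega)
      omega
    exact (Finset.card_le_card hsub).trans Finset.card_le_two

theorem window (S : Finset ℕ) (m μ K t u : ℕ) (hm : m < 2 ^ (μ + 1)) (ht : 2 ^ t ≤ 2 * K)
    (k : ℕ → ℕ) (hk : ∀ v n, CovB S m μ v n → k v ≤ n) (A : Finset ℕ) (hAK : A.card ≤ K)
    (hA : ∀ s ∈ S, 2 ^ (μ + u) ≤ s → s < 2 * K * 2 ^ (μ + u) → ∃ a ∈ A, a ≤ s ∧ s < a + m) :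
    ∑ w ∈ Finset.range t, k (u + w) ≤ 2 * K := by
  classical
  have h1 : ∀ w ∈ Finset.range t, k (u + w) ≤
      (A.filter (fun a => a < 2 ^ (μ + (u + w) + 1) ∧ 2 ^ (μ + (u + w)) < a + m)).card := by
    intro w hw
    rw [Finset.mem_range] at hw
    apply hk
    refine ⟨_, le_rfl, ?_⟩
    intro s hs h1 h2
    have e1 : 2 ^ (μ + u) ≤ 2 ^ (μ + (u + w)) := Nat.pow_le_pow_right (by norm_num) (by omega)
    have e2 : 2 ^ (μ + (u + w) + 1) ≤ 2 * K * 2 ^ (μ + u) := by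
      calc 2 ^ (μ + (u + w) + 1) ≤ 2 ^ (t + (μ + u)) := Nat.pow_le_pow_right (by norm_num) (by omega)
        _ = 2 ^ t * 2 ^ (μ + u) := by rw [pow_add]
        _ ≤ 2 * K * 2 ^ (μ + u) := Nat.mul_le_mul_right _ ht
    obtain ⟨a, ha, h3, h4⟩ := hA s hs (e1.trans h1) (lt_of_lt_of_le h2 e2)
    exact ⟨a, Finset.mem_filter.2 ⟨ha, lt_of_le_of_lt h3 h2, by omega⟩, h3, h4⟩
  calc ∑ w ∈ Finset.range t, k (u + w)
      ≤ ∑ w ∈ Finset.range t,
        (A.filter (fun a => a < 2 ^ (μ + (u + w) + 1) ∧ 2 ^ (μ + (u + w)) < a + m)).card :=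
        Finset.sum_le_sum h1
    _ = ∑ a ∈ A, ((Finset.range t).filter
        (fun w => a < 2 ^ (μ + (u + w) + 1) ∧ 2 ^ (μ + (u + w)) < a + m)).card := by
        simp only [Finset.card_filter]
        exact Finset.sum_comm
    _ ≤ ∑ _a ∈ A, 2 := Finset.sum_le_sum (fun a _ => two_blocks m μ t u a hm)
    _ = A.card * 2 := by rw [Finset.sum_const, smul_eq_mul]
    _ ≤ 2 * K := by omega

theorem window_long (k : ℕ → ℕ) (C t q h : ℕ) (hw : ∀ u, ∑ w ∈ Finset.range t, k (u + w) ≤ C)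
    (hq : h ≤ q * t) (u : ℕ) : ∑ w ∈ Finset.range h, k (u + w) ≤ q * C := by
  have h1 : ∀ q : ℕ, ∑ w ∈ Finset.range (q * t), k (u + w) ≤ q * C := by
    intro q
    induction q with
    | zero => simp
    | succ q ih =>
      rw [Nat.add_mul, Nat.one_mul, Finset.sum_range_add, Nat.add_mul, Nat.one_mul]
      have h2 := hw (u + q * t)
      have h3 : ∑ x ∈ Finset.range t, k (u + (q * t + x)) =
          ∑ w ∈ Finset.range t, k (u + q * t + w) :=
        Finset.sum_congr rfl (fun w _ => by rw [Nat.add_assoc])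
      rw [h3]
      omega
  exact (Finset.sum_le_sum_of_subset (Finset.range_mono hq)).trans (h1 q)

theorem dense_window (S : Finset ℤ) (K : ℕ) (hK : 1 ≤ K) (hS : FewI S K) :
    Pool.Agent.Helper10.Sch.Dense S (2 ^ 17 * (K : ℝ)) := by
  classical
  obtain ⟨m, hm1, hmS, hA⟩ := hS
  set μ := Nat.log 2 m.toNat with hμ
  have hm0 : m.toNat ≠ 0 := by omega
  have hμ1 : 2 ^ μ ≤ m.toNat := Nat.pow_log_le_self 2 hm0
  have hμ2 : m.toNat < 2 ^ (μ + 1) := Nat.lt_pow_succ_log_self (by norm_num) _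
  set S' : Finset ℕ := S.image Int.toNat with hS'
  have hS2 : ∀ s ∈ S', 2 ^ μ ≤ s := by
    intro s hs
    obtain ⟨t, ht, rfl⟩ := Finset.mem_image.1 hs
    have ht1 := hmS t ht
    omega
  set t := Nat.log 2 (2 * K) with ht
  have ht1 : 2 ^ t ≤ 2 * K := Nat.pow_log_le_self 2 (by omega)
  have ht2 : 2 * K < 2 ^ (t + 1) := Nat.lt_pow_succ_log_self (by norm_num) _
  have ht3 : 1 ≤ t := Nat.log_pos (by norm_num) (by omega)
  have hex : ∀ v, ∃ n, CovB S' m.toNat μ v n := fun v =>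
    ⟨S'.card, S', le_rfl, fun s hs _ _ => ⟨s, hs, le_rfl, by omega⟩⟩
  have hwt : ∀ u, ∑ w ∈ Finset.range t, Nat.find (hex (u + w)) ≤ 2 * K := by
    intro u
    obtain ⟨A, hAk, hA⟩ := hA ((2 ^ (μ + u) : ℕ) : ℤ)
    refine window S' m.toNat μ K t u hμ2 ht1 (fun v => Nat.find (hex v))
      (fun v n hn => Nat.find_min' (hex v) hn) (A.image Int.toNat)
      (Finset.card_image_le.trans hAk) ?_
    intro s hs hs1 hs2
    obtain ⟨r, hr, rfl⟩ := Finset.mem_image.1 hs
    have hr1 := hmS r hr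
    have hr2 : ((2 ^ (μ + u) : ℕ) : ℤ) ≤ r := by omega
    have hr3 : r < 2 * (K : ℤ) * ((2 ^ (μ + u) : ℕ) : ℤ) := by
      have h1 : ((r.toNat : ℕ) : ℤ) < ((2 * K * 2 ^ (μ + u) : ℕ) : ℤ) := by exact_mod_cast hs2
      rw [Int.toNat_of_nonneg (by omega)] at h1
      push_cast at h1 ⊢
      exact h1
    obtain ⟨a, haA, ha1, ha2⟩ := hA r hr hr2 hr3
    refine ⟨a.toNat, Finset.mem_image_of_mem _ haA, by omega, by omega⟩
  have hwin : ∀ u, 1600 * ∑ w ∈ Finset.range (t + 13), Nat.find (hex (u + w)) ≤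
      2 ^ (t + 13 + 3) := by
    intro u
    have h1 := window_long (fun v => Nat.find (hex v)) (2 * K) t 14 (t + 13) hwt (by omega) u
    have h2 : 2 ^ (t + 13 + 3) = 32768 * 2 ^ (t + 1) := by
      rw [show t + 13 + 3 = 15 + (t + 1) by omega, pow_add]
      norm_num
    rw [h2]
    omega
  obtain ⟨Q, W, p, hW, hQ, hgood⟩ := exists_mult2 (t + 13) m.toNat μ S' (by omega) hμ2
    (fun v => Nat.find (hex v)) (fun v => Nat.find_spec (hex v)) hwin hS2
  have hWQ : W ≤ Q := by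
    rw [hQ]
    exact Nat.le_mul_of_pos_left _ (by positivity)
  have hQ0 : 0 < Q := by omega
  refine ⟨0, fun L => ?_⟩
  obtain ⟨φ, hφ⟩ := exists_shift Q W p L hW hWQ
  set B0 := (Finset.range L).filter (fun n => (p * n + φ) % Q < W) with hB0
  refine ⟨B0.image (fun n : ℕ => (n : ℤ)), ?_, ?_, ?_⟩
  · intro b hb
    obtain ⟨n, hn, rfl⟩ := Finset.mem_image.1 hb
    have := Finset.mem_range.1 (Finset.mem_filter.1 hn).1
    push_cast
    omega
  · intro b hb e he hbe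
    obtain ⟨n, hn, rfl⟩ := Finset.mem_image.1 hb
    obtain ⟨n', hn', rfl⟩ := Finset.mem_image.1 he
    have h1 := (Finset.mem_filter.1 hn).2
    have h2 := (Finset.mem_filter.1 hn').2
    set s : ℤ := (n : ℤ) - n' with hs
    have hs1 := hmS s hbe
    have hn2 : n = n' + s.toNat := by omega
    have hg := hgood s.toNat (Finset.mem_image_of_mem _ hbe)
    unfold good at hg
    have e1 : p * n + φ = (p * n' + φ) + p * s.toNat := by rw [hn2]; ring
    rw [e1, Nat.add_mod, Nat.mod_eq_of_lt (by omega)] at h1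
    omega
  · rw [Finset.card_image_of_injective _ (fun a b h => by exact_mod_cast h)]
    rw [hQ] at hφ
    have h3 : L * W ≤ (2 ^ (t + 13 + 3) * B0.card) * W := by
      calc L * W ≤ 2 ^ (t + 13 + 3) * W * B0.card := hφ
        _ = _ := by ring
    have h4 : L ≤ 2 ^ (t + 13 + 3) * B0.card := Nat.le_of_mul_le_mul_right h3 hW
    have h5 : 2 ^ (t + 13 + 3) ≤ 2 ^ 17 * K := by
      calc 2 ^ (t + 13 + 3) = 2 ^ 16 * 2 ^ t := by
            rw [← pow_add]
            congr 1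
            omega
        _ ≤ 2 ^ 16 * (2 * K) := Nat.mul_le_mul_left _ ht1
        _ = 2 ^ 17 * K := by ring
    have h6 : L ≤ 2 ^ 17 * K * B0.card := h4.trans (Nat.mul_le_mul_right _ h5)
    exact_mod_cast h6

end Pool.Agent.SCHL
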