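import Mathlib
import Pool.Agent.SCHL.Win2
import Pool.Agent.Helper10.Sch.Avg

/-!
# Sum-free sets which at every scale have many integers without differences in them or few runs
-/

set_option autoImplicit false

namespace Pool.Agent.SCHL

open Finset
open scoped Pointwise

/-- The first elements of the runs of consecutive integers in `S ∩ [x, 2 K x)`. -/
def runs (S : Finset ℤ) (K : ℕ) (x : ℤ) : Finset ℤ :=
  S.filter (fun s => x ≤ s ∧ s < 2 * K * x ∧ (s = x ∨ s - 1 ∉ S))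

theorem run_start (S : Finset ℤ) (x : ℤ) (d : ℕ) : ∀ s ∈ S, s = x + d →
    ∃ r ∈ S, x ≤ r ∧ r ≤ s ∧ (r = x ∨ r - 1 ∉ S) ∧ ∀ t, r ≤ t → t ≤ s → t ∈ S := by
  induction d with
  | zero =>
    intro s hs hd
    have hsx : s = x := by simpa using hd
    refine ⟨s, hs, hsx.ge, le_rfl, Or.inl hsx, fun t h1 h2 => ?_⟩
    have : t = s := le_antisymm h2 h1
    rw [this]; exact hs
  | succ d ih =>
    intro s hs hd
    push_cast at hd
    by_cases h : s - 1 ∈ S
    · obtain ⟨r, hr, h1, h2, h3, h4⟩ := ih (s - 1) h (by omega)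
      refine ⟨r, hr, h1, by omega, h3, fun t h5 h6 => ?_⟩
      rcases lt_or_ge t s with h7 | h7
      · exact h4 t h5 (by omega)
      · have : t = s := le_antisymm h6 h7
        rw [this]; exact hs
    · refine ⟨s, hs, by omega, le_rfl, Or.inr h, fun t h1 h2 => ?_⟩
      have : t = s := le_antisymm h2 h1
      rw [this]; exact hs

theorem few_of_runs (S : Finset ℤ) (K M : ℕ) (hS : ∀ x ∈ S, ∀ y ∈ S, x + y ∉ S)
    (hp : ∀ s ∈ S, 1 ≤ s) (hK : ∀ x : ℕ, M < x → (runs S K x).card ≤ K) :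
    FewI (S.filter (fun s => (M : ℤ) < s)) K := by
  rcases S.eq_empty_or_nonempty with rfl | hne
  · exact ⟨1, le_rfl, by simp, fun x => ⟨∅, by simp, by simp⟩⟩
  · have hm := S.min'_mem hne
    refine ⟨S.min' hne, hp _ hm, fun s hs => S.min'_le s (Finset.mem_filter.1 hs).1, fun x => ?_⟩
    rcases lt_or_ge x 1 with hx | hx
    · refine ⟨∅, by simp, fun s hs h1 h2 => ?_⟩
      exfalso
      have h3 := hp s (Finset.mem_filter.1 hs).1
      have h4 : 2 * (K : ℤ) * x ≤ 0 := mul_nonpos_of_nonneg_of_nonpos (by positivity) (by omega)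
      omega
    · set x' : ℕ := max x.toNat (M + 1) with hx'
      refine ⟨runs S K x', hK x' (by omega), ?_⟩
      intro s hs h1 h2
      obtain ⟨hsS, hsM⟩ := Finset.mem_filter.1 hs
      have hxs : (x' : ℤ) ≤ s := by omega
      have hxx : x ≤ (x' : ℤ) := by omega
      have h2' : s < 2 * (K : ℤ) * x' :=
        lt_of_lt_of_le h2 (mul_le_mul_of_nonneg_left hxx (by positivity))
      obtain ⟨r, hr, h3, h4, h5, h6⟩ := run_start S x' (s - x').toNat s hsS (by omega)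
      refine ⟨r, ?_, h4, ?_⟩
      · rw [runs, Finset.mem_filter]
        exact ⟨hr, h3, lt_of_le_of_lt h4 h2', h5⟩
      · by_contra hcon
        have h7 : r + S.min' hne ∈ S := by
          have := hp _ hm
          exact h6 _ (by omega) (by omega)
        exact hS r hr (S.min' hne) hm h7

theorem dense_empty (c : ℝ) (hc : 1 ≤ c) : Pool.Agent.Helper10.Sch.Dense ∅ c := by
  refine ⟨0, fun L => ⟨(Finset.range L).image (fun n : ℕ => (n : ℤ)), ?_, by simp, ?_⟩⟩
  · intro b hb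
    obtain ⟨n, hn, rfl⟩ := Finset.mem_image.1 hb
    have := Finset.mem_range.1 hn
    push_cast
    omega
  · rw [Finset.card_image_of_injective _ (fun a b h => by exact_mod_cast h), Finset.card_range]
    have : (0 : ℝ) ≤ (L : ℝ) := Nat.cast_nonneg L
    nlinarith

theorem dense_low (S X : Finset ℤ) (M : ℕ) (δ : ℝ) (hδ : 0 < δ) (hδ1 : δ ≤ 1) (hM : 1 ≤ M)
    (hp : ∀ s ∈ S, 1 ≤ s) (hX : X ⊆ Finset.Ico 0 (M : ℤ)) (hf : ∀ a ∈ X, ∀ b ∈ X, a - b ∉ S)
    (hd : δ * M ≤ (X.card : ℝ)) :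
    Pool.Agent.Helper10.Sch.Dense (S.filter (fun s => s ≤ (M : ℤ))) (5 / δ) := by
  classical
  rcases (S.filter (fun s => s ≤ (M : ℤ))).eq_empty_or_nonempty with h0 | h0
  · rw [h0]
    exact dense_empty _ (by rw [le_div_iff₀ hδ]; linarith)
  · have hM' : (1 : ℝ) ≤ M := by exact_mod_cast hM
    have hXpos : (0 : ℝ) < (X.card : ℝ) := lt_of_lt_of_le (by positivity) hd
    have hXne : X.Nonempty := Finset.card_pos.1 (by exact_mod_cast hXpos)
    refine Pool.Agent.Helper10.Sch.dense_of_set h0 hXne ?_ ?_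
    · intro a ha b hb hab
      exact hf a ha b hb (Finset.mem_filter.1 hab).1
    · have hsub : S.filter (fun s => s ≤ (M : ℤ)) + X - X ⊆ Finset.Icc (2 - (M : ℤ)) (2 * M - 1) := by
        intro z hz
        obtain ⟨w, hw, b, hb, rfl⟩ := Finset.mem_sub.1 hz
        obtain ⟨s, hs, a, ha, rfl⟩ := Finset.mem_add.1 hw
        have h1 := Finset.mem_filter.1 hs
        have h2 := hp s h1.1
        have h3 := Finset.mem_Ico.1 (hX ha)
        have h4 := Finset.mem_Ico.1 (hX hb)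
        rw [Finset.mem_Icc]
        omega
      have hcard : ((S.filter (fun s => s ≤ (M : ℤ)) + X - X).card : ℝ) ≤ 3 * M := by
        have h1 := Finset.card_le_card hsub
        rw [Int.card_Icc] at h1
        have h2 : (2 * (M : ℤ) - 1 + 1 - (2 - (M : ℤ))).toNat ≤ 3 * M := by omega
        exact_mod_cast h1.trans h2
      have h5 : 2 * (5 / δ) * (X.card : ℝ) = 10 * ((X.card : ℝ) / δ) := by ring
      have h6 : (M : ℝ) ≤ (X.card : ℝ) / δ := by
        rw [le_div_iff₀ hδ]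
        linarith
      rw [h5]
      linarith

/-- `[0, x)` contains at least `δ x` integers no two of which differ by an element of `S`. -/
def FreeAt (S : Finset ℤ) (δ : ℝ) (x : ℕ) : Prop :=
  ∃ X : Finset ℤ, X ⊆ Finset.Ico 0 (x : ℤ) ∧ (∀ a ∈ X, ∀ b ∈ X, a - b ∉ S) ∧ δ * x ≤ (X.card : ℝ)

/-- Free at the scale `M`, and few intervals above `M`. -/
def Tame (S : Finset ℤ) (K : ℕ) (δ : ℝ) : Prop :=
  ∃ (M : ℕ) (p : ℤ), FreeAt S δ M ∧ 1 ≤ p ∧ (∀ s ∈ S, (M : ℤ) < s → p ≤ s) ∧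
    ∀ x : ℤ, ∃ A : Finset ℤ, A.card ≤ K ∧
      ∀ s ∈ S, (M : ℤ) < s → x ≤ s → s < 2 * K * x → ∃ a ∈ A, a ≤ s ∧ s < a + p

/-- At every scale there are many integers without differences in the set, or it has few runs. -/
def Mixed (S : Finset ℤ) (K : ℕ) (δ : ℝ) : Prop :=
  ∀ x : ℕ, 1 ≤ x → FreeAt S δ x ∨ (runs S K x).card ≤ K

theorem tame_of_mixed (S : Finset ℤ) (K : ℕ) (δ : ℝ)
    (hS : ∀ x ∈ S, ∀ y ∈ S, x + y ∉ S) (hp : ∀ s ∈ S, 1 ≤ s) (h : Mixed S K δ) :
    Tame S K δ := by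
  classical
  set b : ℕ := S.sup Int.toNat with hb
  set M := Nat.findGreatest (FreeAt S δ) b with hM
  have hruns : ∀ x : ℕ, M < x → (runs S K x).card ≤ K := by
    intro x hx
    rcases le_or_gt x b with hxb | hxb
    · rcases h x (by omega) with h1 | h1
      · exact absurd h1 (Nat.findGreatest_is_greatest hx hxb)
      · exact h1
    · have h0 : runs S K x = ∅ := by
        rw [runs, Finset.filter_eq_empty_iff]
        rintro s hs ⟨h1, -, -⟩
        have h2 : s.toNat ≤ b := Finset.le_sup (f := Int.toNat) hs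
        have h3 := hp s hs
        omega
      rw [h0]
      simp
  have hfree : FreeAt S δ M := by
    rcases Nat.eq_zero_or_pos M with h0 | h0
    · rw [h0]
      exact ⟨∅, by simp, by simp, by simp⟩
    · exact Nat.findGreatest_of_ne_zero hM.symm (by omega)
  obtain ⟨p, hp1, hp2, hA⟩ := few_of_runs S K M hS hp hruns
  refine ⟨M, p, hfree, hp1, fun s hs h1 => hp2 s (Finset.mem_filter.2 ⟨hs, h1⟩), fun x => ?_⟩
  obtain ⟨A, hA1, hA2⟩ := hA x
  exact ⟨A, hA1, fun s hs h1 h2 h3 => hA2 s (Finset.mem_filter.2 ⟨hs, h1⟩) h2 h3⟩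

theorem split (S : Finset ℤ) (K : ℕ) (δ : ℝ) (hK : 1 ≤ K) (hδ : 0 < δ) (hδ1 : δ ≤ 1)
    (hp : ∀ s ∈ S, 1 ≤ s) (h : Tame S K δ) :
    ∃ S1 S2 : Finset ℤ, (∀ s ∈ S, s ∈ S1 ∨ s ∈ S2) ∧
      Pool.Agent.Helper10.Sch.Dense S1 (5 / δ) ∧
      Pool.Agent.Helper10.Sch.Dense S2 (131072 * (K : ℝ)) := by
  classical
  obtain ⟨M, p, ⟨X, hX1, hX2, hX3⟩, hp1, hp2, hA⟩ := h
  refine ⟨S.filter (fun s => s ≤ (M : ℤ)), S.filter (fun s => (M : ℤ) < s), ?_, ?_, ?_⟩
  · intro s hs
    rcases le_or_gt s (M : ℤ) with h1 | h1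
    · exact Or.inl (Finset.mem_filter.2 ⟨hs, h1⟩)
    · exact Or.inr (Finset.mem_filter.2 ⟨hs, h1⟩)
  · rcases Nat.eq_zero_or_pos M with h0 | h0
    · have : S.filter (fun s => s ≤ (M : ℤ)) = ∅ := by
        rw [Finset.filter_eq_empty_iff]
        intro s hs
        have := hp s hs
        omega
      rw [this]
      exact dense_empty _ (by rw [le_div_iff₀ hδ]; linarith)
    · exact dense_low S X M δ hδ hδ1 h0 hp hX1 hX2 hX3
  · have h1 := dense_window (S.filter (fun s => (M : ℤ) < s)) K hK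
      ⟨p, hp1, fun s hs => hp2 s (Finset.mem_filter.1 hs).1 (Finset.mem_filter.1 hs).2, fun x => by
        obtain ⟨A, hA1, hA2⟩ := hA x
        exact ⟨A, hA1, fun s hs h2 h3 =>
          hA2 s (Finset.mem_filter.1 hs).1 (Finset.mem_filter.1 hs).2 h2 h3⟩⟩
    norm_num at h1
    exact h1

theorem prod_tame (N n m : ℕ) (S : Fin n → Finset ℤ) (T : Fin m → Set ℤ) (K : Fin n → ℕ)
    (δ : Fin n → ℝ) (hK : ∀ i, 1 ≤ K i) (hδ : ∀ i, 0 < δ i) (hδ1 : ∀ i, δ i ≤ 1)
    (hp : ∀ i, ∀ s ∈ S i, 1 ≤ s)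
    (hM : ∀ i, Tame (S i) (K i) (δ i)) (hT : ∀ j, Pool.Agent.Helper10.Sch.SumFree (T j))
    (hcov : ∀ x : ℤ, 1 ≤ x → x ≤ N → (∃ i, x ∈ S i) ∨ ∃ j, x ∈ T j) :
    (N : ℝ) + 1 ≤ (∑ l ∈ Finset.range (m + 1), (m.descFactorial l : ℝ)) *
      ∏ i, (655360 * (K i : ℝ) / δ i) := by
  choose S1 S2 h1 h2 h3 using fun i => split (S i) (K i) (δ i) (hK i) (hδ i) (hδ1 i) (hp i) (hM i)
  have h := Pool.Agent.Helper10.Sch.avg N (Fin.append S1 S2)
    (Fin.append (fun i => 5 / δ i) (fun i => 131072 * (K i : ℝ)))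
    (fun i => by
      refine Fin.addCases (fun i => ?_) (fun i => ?_) i
      · rw [Fin.append_left, Fin.append_left]; exact h2 i
      · rw [Fin.append_right, Fin.append_right]; exact h3 i) T hT
    (fun x hx1 hx2 => by
      rcases hcov x hx1 hx2 with ⟨i, hi⟩ | hj
      · left
        rcases h1 i x hi with h4 | h4
        · exact ⟨Fin.castAdd n i, by rw [Fin.append_left]; exact h4⟩
        · exact ⟨Fin.natAdd n i, by rw [Fin.append_right]; exact h4⟩
      · exact Or.inr hj)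
  have e : ((Pool.Agent.Helper10.Sch.sm m : ℕ) : ℝ) =
      ∑ l ∈ Finset.range (m + 1), (m.descFactorial l : ℝ) := by
    unfold Pool.Agent.Helper10.Sch.sm
    push_cast
    rfl
  rw [e, Fin.prod_univ_add] at h
  simp only [Fin.append_left, Fin.append_right] at h
  rw [← Finset.prod_mul_distrib] at h
  have e2 : ∀ i, 5 / δ i * (131072 * (K i : ℝ)) = 655360 * (K i : ℝ) / δ i := fun i => by ring
  simp only [e2] at h
  exact h

end Pool.Agent.SCHL
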