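import Mathlib
import Pool.Agent.SCHL.Dich
import Pool.Agent.Helper10.Sch.Avg

/-!
# Sum-free coverings: the scales at which all classes have few runs
-/

set_option autoImplicit false

namespace Pool.Agent.SCHL

open Finset

/-- The first elements of the runs of consecutive integers in `S ∩ [x, y)`. -/
def runsIn (S : Finset ℤ) (x y : ℤ) : Finset ℤ :=
  S.filter (fun s => x ≤ s ∧ s < y ∧ (s = x ∨ s - 1 ∉ S))

theorem few_scales (S : Finset ℤ) (D K N j1 : ℕ) (B : Finset ℕ) (hK : 1 ≤ K) (hD : 2 * K ≤ D)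
    (hS : ∀ x ∈ S, ∀ y ∈ S, x + y ∉ S) (hp : ∀ s ∈ S, 1 ≤ s)
    (hgood : ∀ j, j1 ≤ j → j ≤ Nat.log D N → j ∉ B →
      (runsIn S ((D : ℤ) ^ j) ((D : ℤ) ^ (j + 1))).card ≤ K) :
    FewI (S.filter (fun s => j1 ≤ Nat.log D s.toNat ∧ Nat.log D s.toNat ∉ B ∧ s ≤ (N : ℤ)))
      (5 * K) := by
  classical
  have hD2 : 2 ≤ D := by omega
  rcases S.eq_empty_or_nonempty with rfl | hne
  · exact ⟨1, le_rfl, by simp, fun x => ⟨∅, by simp, by simp⟩⟩
  · have hm := S.min'_mem hne
    refine ⟨S.min' hne, hp _ hm, fun s hs => S.min'_le s (Finset.mem_filter.1 hs).1, fun x => ?_⟩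
    rcases lt_or_ge x 1 with hx | hx
    · refine ⟨∅, by simp, fun s hs h1 h2 => ?_⟩
      exfalso
      have h3 := hp s (Finset.mem_filter.1 hs).1
      have h4 : 2 * ((5 * K : ℕ) : ℤ) * x ≤ 0 :=
        mul_nonpos_of_nonneg_of_nonpos (by positivity) (by omega)
      omega
    · set j0 := Nat.log D x.toNat with hj0
      set J := (Finset.range 5).filter
        (fun t => j1 ≤ j0 + t ∧ j0 + t ∉ B ∧ j0 + t ≤ Nat.log D N) with hJ
      refine ⟨J.biUnion (fun t => runsIn S ((D : ℤ) ^ (j0 + t)) ((D : ℤ) ^ (j0 + t + 1))), ?_, ?_⟩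
      · refine (Finset.card_biUnion_le_card_mul J _ K ?_).trans ?_
        · intro t ht
          have := Finset.mem_filter.1 ht
          exact hgood _ this.2.1 this.2.2.2 this.2.2.1
        · have : J.card ≤ 5 := (Finset.card_filter_le _ _).trans (by simp)
          exact Nat.mul_le_mul_right _ this
      · intro s hs h1 h2
        obtain ⟨hsS, hsj, hsB, hsN⟩ := Finset.mem_filter.1 hs
        have hs1 := hp s hsS
        set j := Nat.log D s.toNat with hj
        have hj1 : D ^ j ≤ s.toNat := Nat.pow_log_le_self D (by omega)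
        have hj2 : s.toNat < D ^ (j + 1) := Nat.lt_pow_succ_log_self (by omega) _
        have hx2 : x.toNat < D ^ (j0 + 1) := Nat.lt_pow_succ_log_self (by omega) _
        have hjj : j0 ≤ j := Nat.log_mono_right (by omega)
        have hjN : j ≤ Nat.log D N := Nat.log_mono_right (by omega)
        have hj4 : j ≤ j0 + 4 := by
          by_contra hcon
          push Not at hcon
          have e1 : D ^ (j0 + 5) ≤ D ^ j := Nat.pow_le_pow_right (by omega) (by omega)
          have e2 : D ^ (j0 + 5) = D ^ 4 * D ^ (j0 + 1) := by rw [← pow_add]; congr 1; omega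
          have e3 : s.toNat < 5 * D * x.toNat := by
            have e4 : ((s.toNat : ℕ) : ℤ) < ((2 * (5 * K) * x.toNat : ℕ) : ℤ) := by
              rw [Int.toNat_of_nonneg (by omega)]
              push_cast
              rw [Int.toNat_of_nonneg (by omega)]
              push_cast at h2
              exact h2
            have e5 : s.toNat < 2 * (5 * K) * x.toNat := by exact_mod_cast e4
            calc s.toNat < 2 * (5 * K) * x.toNat := e5
              _ = 5 * (2 * K) * x.toNat := by ring
              _ ≤ 5 * D * x.toNat := Nat.mul_le_mul_right _ (Nat.mul_le_mul_left _ hD)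
          have e6 : 5 * D ≤ D ^ 4 := by
            have e7 : 8 ≤ D ^ 3 := by
              calc 8 = 2 ^ 3 := by norm_num
                _ ≤ D ^ 3 := Nat.pow_le_pow_left hD2 3
            calc 5 * D ≤ D ^ 3 * D := Nat.mul_le_mul_right _ (by omega)
              _ = D ^ 4 := by ring
          have e8 : 5 * D * x.toNat ≤ D ^ 4 * D ^ (j0 + 1) := Nat.mul_le_mul e6 hx2.le
          omega
        have hjs : (D : ℤ) ^ j ≤ s := by
          have : ((D ^ j : ℕ) : ℤ) ≤ ((s.toNat : ℕ) : ℤ) := by exact_mod_cast hj1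
          rw [Int.toNat_of_nonneg (by omega)] at this
          push_cast at this
          exact this
        have hjs2 : s < (D : ℤ) ^ (j + 1) := by
          have : ((s.toNat : ℕ) : ℤ) < ((D ^ (j + 1) : ℕ) : ℤ) := by exact_mod_cast hj2
          rw [Int.toNat_of_nonneg (by omega)] at this
          push_cast at this
          exact this
        obtain ⟨r, hr, h3, h4, h5, h6⟩ :=
          run_start S ((D : ℤ) ^ j) (s - (D : ℤ) ^ j).toNat s hsS (by omega)
        refine ⟨r, ?_, h4, ?_⟩
        · rw [Finset.mem_biUnion]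
          refine ⟨j - j0, ?_, ?_⟩
          · rw [hJ, Finset.mem_filter, Finset.mem_range]
            have : j0 + (j - j0) = j := by omega
            rw [this]
            exact ⟨by omega, hsj, hsB, hjN⟩
          · have : j0 + (j - j0) = j := by omega
            rw [this, runsIn, Finset.mem_filter]
            exact ⟨hr, h3, lt_of_le_of_lt h4 hjs2, h5⟩
        · by_contra hcon
          have h7 : r + S.min' hne ∈ S := by
            have := hp _ hm
            exact h6 _ (by omega) (by omega)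
          exact hS r hr (S.min' hne) hm h7

theorem dense_interval (x D : ℕ) (hx : 1 ≤ x) :
    Pool.Agent.Helper10.Sch.Dense (Finset.Ico (x : ℤ) ((D : ℤ) * x)) ((D : ℝ) + 1) := by
  classical
  refine ⟨0, fun L => ?_⟩
  obtain ⟨φ, hφ⟩ := exists_shift (x + D * x) x 1 L (by omega) (by omega)
  set B0 := (Finset.range L).filter (fun n => (1 * n + φ) % (x + D * x) < x) with hB0
  refine ⟨B0.image (fun n : ℕ => (n : ℤ)), ?_, ?_, ?_⟩
  · intro b hb
    obtain ⟨n, hn, rfl⟩ := Finset.mem_image.1 hb
    have := Finset.mem_range.1 (Finset.mem_filter.1 hn).1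
    push_cast
    omega
  · intro b hb e he hbe
    obtain ⟨n, hn, rfl⟩ := Finset.mem_image.1 hb
    obtain ⟨n', hn', rfl⟩ := Finset.mem_image.1 he
    have h1 := (Finset.mem_filter.1 hn).2
    have h2 := (Finset.mem_filter.1 hn').2
    rw [Finset.mem_Ico] at hbe
    obtain ⟨h3, h4⟩ := hbe
    obtain ⟨d, hd⟩ : ∃ d : ℕ, n = n' + d := ⟨n - n', by omega⟩
    have h5 : x ≤ d := by omega
    have h6 : d < D * x := by
      have : (d : ℤ) < (D : ℤ) * x := by
        rw [hd] at h4
        push_cast at h4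
        omega
      exact_mod_cast this
    have e1 : 1 * n + φ = (1 * n' + φ) + d := by rw [hd]; ring
    rw [e1, Nat.add_mod, Nat.mod_eq_of_lt (show d < x + D * x by omega),
      Nat.mod_eq_of_lt (show (1 * n' + φ) % (x + D * x) + d < x + D * x by omega)] at h1
    omega
  · rw [Finset.card_image_of_injective _ (fun a b h => by exact_mod_cast h)]
    have h3 : L * x ≤ ((D + 1) * B0.card) * x := by
      calc L * x ≤ (x + D * x) * B0.card := hφ
        _ = _ := by ring
    have h4 : L ≤ (D + 1) * B0.card := Nat.le_of_mul_le_mul_right h3 (by omega)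
    exact_mod_cast h4

/-- The scales `j ≤ log_D N` at which some class has more than `K` runs in `[D ^ j, D ^ (j + 1))` and
is not free at `D ^ (j + 1)`. -/
def BadScales {n : ℕ} (S : Fin n → Finset ℤ) (δ : ℝ) (D K N : ℕ) : Set ℕ :=
  {j | j ≤ Nat.log D N ∧ ∃ i, ¬ FreeAt (S i) δ (D ^ (j + 1)) ∧
    K < (runsIn (S i) ((D : ℤ) ^ j) ((D : ℤ) ^ (j + 1))).card}

theorem free_one (S : Finset ℤ) (δ : ℝ) (hδ1 : δ ≤ 1) (hp : ∀ s ∈ S, 1 ≤ s) (D : ℕ) :
    FreeAt S δ (D ^ 0) := by
  refine ⟨{0}, by simp, ?_, by simpa using hδ1⟩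
  intro a ha b hb hab
  rw [Finset.mem_singleton] at ha hb
  subst ha
  subst hb
  have := hp _ hab
  omega

theorem scales (N n m D K : ℕ) (δ : ℝ) (S : Fin n → Finset ℤ) (T : Fin m → Set ℤ) (hK : 1 ≤ K)
    (hD : 2 * K ≤ D) (hδ : 0 < δ) (hδ1 : δ ≤ 1) (hp : ∀ i, ∀ s ∈ S i, 1 ≤ s)
    (hS : ∀ i, ∀ x ∈ S i, ∀ y ∈ S i, x + y ∉ S i)
    (hT : ∀ j, Pool.Agent.Helper10.Sch.SumFree (T j))
    (hcov : ∀ x : ℤ, 1 ≤ x → x ≤ N → (∃ i, x ∈ S i) ∨ ∃ j, x ∈ T j) (B : Finset ℕ)
    (hB : ∀ j, j ∈ BadScales S δ D K N → j ∈ B) :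
    (N : ℝ) + 1 ≤ (∑ l ∈ Finset.range (m + 1), (m.descFactorial l : ℝ)) *
      ((3276800 * (K : ℝ) / δ) ^ n * ((D : ℝ) + 1) ^ B.card) := by
  classical
  have hD2 : 2 ≤ D := by omega
  set J1 : Fin n → ℕ := fun i =>
    Nat.findGreatest (fun j => FreeAt (S i) δ (D ^ j)) (Nat.log D N + 1) with hJ1
  have hfree : ∀ i, FreeAt (S i) δ (D ^ (J1 i)) := fun i =>
    Nat.findGreatest_spec (P := fun j => FreeAt (S i) δ (D ^ j)) (Nat.zero_le _)
      (free_one (S i) δ hδ1 (hp i) D)
  have hgood : ∀ i, ∀ j, J1 i ≤ j → j ≤ Nat.log D N → j ∉ B →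
      (runsIn (S i) ((D : ℤ) ^ j) ((D : ℤ) ^ (j + 1))).card ≤ K := by
    intro i j h1 h2 h3
    by_contra hcon
    push Not at hcon
    apply h3
    apply hB
    exact ⟨h2, i, Nat.findGreatest_is_greatest (P := fun j => FreeAt (S i) δ (D ^ j))
      (show J1 i < j + 1 by omega) (by omega), hcon⟩
  have h := Pool.Agent.Helper10.Sch.avg N
    (Fin.append (Fin.append
      (fun i => (S i).filter (fun s => s ≤ ((D ^ (J1 i) : ℕ) : ℤ)))
      (fun i => (S i).filter
        (fun s => J1 i ≤ Nat.log D s.toNat ∧ Nat.log D s.toNat ∉ B ∧ s ≤ (N : ℤ))))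
      (fun l : Fin B.card => Finset.Ico (((D ^ (B.equivFin.symm l : ℕ) : ℕ)) : ℤ)
        ((D : ℤ) * ((D ^ (B.equivFin.symm l : ℕ) : ℕ)))))
    (Fin.append (Fin.append (fun _ => 5 / δ) (fun _ => 655360 * (K : ℝ))) (fun _ => (D : ℝ) + 1))
    (fun i => by
      refine Fin.addCases (fun i => ?_) (fun l => ?_) i
      · rw [Fin.append_left, Fin.append_left]
        refine Fin.addCases (fun i => ?_) (fun i => ?_) i
        · rw [Fin.append_left, Fin.append_left]
          obtain ⟨X, hX1, hX2, hX3⟩ := hfree i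
          exact dense_low (S i) X (D ^ (J1 i)) δ hδ hδ1 (Nat.one_le_pow _ _ (by omega)) (hp i)
            hX1 hX2 hX3
        · rw [Fin.append_right, Fin.append_right]
          have h1 := dense_window _ (5 * K) (by omega)
            (few_scales (S i) D K N (J1 i) B hK hD (hS i) (hp i) (hgood i))
          have e : (2 : ℝ) ^ 17 * ((5 * K : ℕ) : ℝ) = 655360 * (K : ℝ) := by
            push_cast
            ring
          rw [e] at h1
          exact h1
      · rw [Fin.append_right, Fin.append_right]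
        exact dense_interval _ D (Nat.one_le_pow _ _ (by omega))) T hT
    (fun x hx1 hx2 => by
      rcases hcov x hx1 hx2 with ⟨i, hi⟩ | hj
      · left
        have hj1 : D ^ (Nat.log D x.toNat) ≤ x.toNat := Nat.pow_log_le_self D (by omega)
        have hj2 : x.toNat < D ^ (Nat.log D x.toNat + 1) :=
          Nat.lt_pow_succ_log_self (by omega) _
        by_cases hB' : Nat.log D x.toNat ∈ B
        · refine ⟨Fin.natAdd (n + n) (B.equivFin ⟨_, hB'⟩), ?_⟩
          rw [Fin.append_right, Equiv.symm_apply_apply, Finset.mem_Ico]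
          rw [pow_succ'] at hj2
          constructor
          · have : ((D ^ (Nat.log D x.toNat) : ℕ) : ℤ) ≤ ((x.toNat : ℕ) : ℤ) := by
              exact_mod_cast hj1
            rwa [Int.toNat_of_nonneg (by omega)] at this
          · have : ((x.toNat : ℕ) : ℤ) < ((D * D ^ (Nat.log D x.toNat) : ℕ) : ℤ) := by
              exact_mod_cast hj2
            rw [Int.toNat_of_nonneg (by omega)] at this
            push_cast at this ⊢
            exact this
        · rcases le_or_gt x ((D ^ (J1 i) : ℕ) : ℤ) with h1 | h1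
          · exact ⟨Fin.castAdd _ (Fin.castAdd n i), by
              rw [Fin.append_left, Fin.append_left, Finset.mem_filter]
              exact ⟨hi, h1⟩⟩
          · refine ⟨Fin.castAdd _ (Fin.natAdd n i), ?_⟩
            rw [Fin.append_left, Fin.append_right, Finset.mem_filter]
            refine ⟨hi, ?_, hB', hx2⟩
            have h2 : D ^ (J1 i) ≤ x.toNat := by omega
            exact Nat.le_log_of_pow_le (by omega) h2
      · exact Or.inr hj)
  have e : ((Pool.Agent.Helper10.Sch.sm m : ℕ) : ℝ) =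
      ∑ l ∈ Finset.range (m + 1), (m.descFactorial l : ℝ) := by
    unfold Pool.Agent.Helper10.Sch.sm
    push_cast
    rfl
  rw [e, Fin.prod_univ_add, Fin.prod_univ_add] at h
  simp only [Fin.append_left, Fin.append_right, Finset.prod_const, Finset.card_univ,
    Fintype.card_fin] at h
  rw [← mul_pow] at h
  have e2 : 5 / δ * (655360 * (K : ℝ)) = 3276800 * (K : ℝ) / δ := by ring
  rw [e2] at h
  exact h

end Pool.Agent.SCHL
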