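import Mathlib
import Pool.Agent.SCHL.Scales

/-!
# Sum-free coverings: the number of good scales is at most linear in the number of classes
-/

set_option autoImplicit false

namespace Pool.Agent.SCHL

open Finset

theorem dense_mono {S : Finset ℤ} {c c' : ℝ} (h : Pool.Agent.Helper10.Sch.Dense S c)
    (hc : c ≤ c') : Pool.Agent.Helper10.Sch.Dense S c' := by
  obtain ⟨M, h⟩ := h
  refine ⟨M, fun L => ?_⟩
  obtain ⟨B, h1, h2, h3⟩ := h L
  exact ⟨B, h1, h2, h3.trans (mul_le_mul_of_nonneg_right hc (Nat.cast_nonneg _))⟩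

theorem exists_stop (B : Finset ℕ) (e : ℕ) : ∃ t, e + t ∉ B := by
  by_contra h
  push Not at h
  have h1 : (Finset.range (B.card + 1)).image (fun t => e + t) ⊆ B := by
    intro x hx
    obtain ⟨t, -, rfl⟩ := Finset.mem_image.1 hx
    exact h t
  have h2 := Finset.card_le_card h1
  rw [Finset.card_image_of_injective _ (fun a b h => by simpa using h), Finset.card_range] at h2
  omega

open Classical in
/-- The number of consecutive elements of `B` from `e` on. -/
noncomputable def stop (B : Finset ℕ) (e : ℕ) : ℕ := Nat.find (exists_stop B e)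

theorem stop_spec (B : Finset ℕ) (e : ℕ) : e + stop B e ∉ B := by
  classical
  exact Nat.find_spec (exists_stop B e)

theorem stop_min (B : Finset ℕ) (e t : ℕ) (ht : t < stop B e) : e + t ∈ B := by
  classical
  by_contra h
  exact Nat.find_min (exists_stop B e) ht h

/-- Going down from `j` in `B`. -/
theorem exists_start (B : Finset ℕ) (j : ℕ) (hj : j ∈ B) :
    ∃ e ≤ j, (e = 0 ∨ e - 1 ∉ B) ∧ ∀ i, e ≤ i → i ≤ j → i ∈ B := by
  induction j with
  | zero => exact ⟨0, le_rfl, Or.inl rfl, fun i h1 h2 => by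
      have : i = 0 := by omega
      rw [this]; exact hj⟩
  | succ j ih =>
    by_cases h : j ∈ B
    · obtain ⟨e, h1, h2, h3⟩ := ih h
      refine ⟨e, by omega, h2, fun i h4 h5 => ?_⟩
      rcases Nat.lt_or_ge j i with h6 | h6
      · have : i = j + 1 := by omega
        rw [this]; exact hj
      · exact h3 i h4 h6
    · refine ⟨j + 1, le_rfl, Or.inr (by simpa using h), fun i h1 h2 => ?_⟩
      have : i = j + 1 := by omega
      rw [this]; exact hj

theorem sum_stop (B E : Finset ℕ) (hE : ∀ e ∈ E, e = 0 ∨ e - 1 ∉ B) :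
    ∑ e ∈ E, stop B e ≤ B.card := by
  classical
  have h1 : ∑ e ∈ E, stop B e = (E.biUnion (fun e => Finset.Ico e (e + stop B e))).card := by
    rw [Finset.card_biUnion]
    · refine Finset.sum_congr rfl fun e _ => ?_
      rw [Nat.card_Ico]
      omega
    · have key : ∀ e ∈ E, ∀ e' ∈ E, e < e' →
          Disjoint (Finset.Ico e (e + stop B e)) (Finset.Ico e' (e' + stop B e')) := by
        intro e _ e' he' hlt
        rw [Finset.disjoint_left]
        intro x hx hx'
        rw [Finset.mem_Ico] at hx hx'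
        rcases hE e' he' with h0 | h0
        · omega
        · apply h0
          have := stop_min B e (e' - 1 - e) (by omega)
          have e1 : e + (e' - 1 - e) = e' - 1 := by omega
          rwa [e1] at this
      intro e he e' he' hne
      rcases lt_or_gt_of_ne hne with h | h
      · exact key e he e' he' h
      · exact (key e' he' e he h).symm
  rw [h1]
  refine Finset.card_le_card fun x hx => ?_
  obtain ⟨e, _, hx⟩ := Finset.mem_biUnion.1 hx
  rw [Finset.mem_Ico] at hx
  have := stop_min B e (x - e) (by omega)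
  have e1 : e + (x - e) = x := by omega
  rwa [e1] at this

theorem dense_gap (B : Finset ℕ) (D e : ℕ) (hD : 2 ≤ D) :
    Pool.Agent.Helper10.Sch.Dense
      (Finset.Ico (((D ^ e : ℕ)) : ℤ) (((D ^ stop B e : ℕ) : ℤ) * ((D ^ e : ℕ))))
      ((D : ℝ) ^ stop B e * (1 + 1 / D)) := by
  have hD1 : (2 : ℝ) ≤ (D : ℝ) := by exact_mod_cast hD
  have hD0 : (0 : ℝ) < 1 / (D : ℝ) := by positivity
  rcases Nat.eq_zero_or_pos (stop B e) with h | h
  · rw [h]
    simp only [pow_zero, Nat.cast_one, one_mul, Finset.Ico_self]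
    exact dense_empty _ (by linarith)
  · have h1 := dense_interval (D ^ e) (D ^ stop B e) (Nat.one_le_pow _ _ (by omega))
    refine dense_mono h1 ?_
    push_cast
    obtain ⟨t, ht⟩ : ∃ t, stop B e = t + 1 := ⟨stop B e - 1, by omega⟩
    rw [ht]
    have h2 : (D : ℝ) ^ (t + 1) * (1 + 1 / D) = (D : ℝ) ^ (t + 1) + (D : ℝ) ^ t := by
      rw [pow_succ]
      field_simp
    rw [h2]
    have h3 : (1 : ℝ) ≤ (D : ℝ) ^ t := one_le_pow₀ (by linarith)
    linarith

/-- A power of `D` at which the set is free, above which and up to `N` it is never free. -/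
theorem exists_top (S : Finset ℤ) (δ : ℝ) (D N : ℕ) (hδ1 : δ ≤ 1) (hp : ∀ s ∈ S, 1 ≤ s) :
    ∃ l, FreeAt S δ (D ^ l) ∧ ∀ j, l ≤ j → j ≤ Nat.log D N → ∀ l', j < l' → ¬ FreeAt S δ (D ^ l') := by
  classical
  by_cases h : ∃ l, Nat.log D N < l ∧ FreeAt S δ (D ^ l)
  · obtain ⟨l, h1, h2⟩ := h
    exact ⟨l, h2, fun j h3 h4 => by omega⟩
  · push Not at h
    refine ⟨Nat.findGreatest (fun j => FreeAt S δ (D ^ j)) (Nat.log D N),
      Nat.findGreatest_spec (P := fun j => FreeAt S δ (D ^ j)) (Nat.zero_le _)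
        (free_one S δ hδ1 hp D), fun j h1 h2 l' h3 => ?_⟩
    rcases le_or_gt l' (Nat.log D N) with h4 | h4
    · exact Nat.findGreatest_is_greatest (P := fun j => FreeAt S δ (D ^ j)) (by omega) h4
    · exact h l' h4

theorem gaps (N n m D K : ℕ) (δ : ℝ) (S : Fin n → Finset ℤ) (T : Fin m → Set ℤ) (hK : 1 ≤ K)
    (hD : 2 * K ≤ D) (hδ : 0 < δ) (hδ1 : δ ≤ 1) (hp : ∀ i, ∀ s ∈ S i, 1 ≤ s)
    (hS : ∀ i, ∀ x ∈ S i, ∀ y ∈ S i, x + y ∉ S i)
    (hT : ∀ j, Pool.Agent.Helper10.Sch.SumFree (T j))
    (hcov : ∀ x : ℤ, 1 ≤ x → x ≤ N → (∃ i, x ∈ S i) ∨ ∃ j, x ∈ T j) (B : Finset ℕ)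
    (hB : ∀ j, j ≤ Nat.log D N → (∃ i, (∀ l, j < l → ¬ FreeAt (S i) δ (D ^ l)) ∧
      K < (runsIn (S i) ((D : ℤ) ^ j) ((D : ℤ) ^ (j + 1))).card) → j ∈ B)
    (hBN : ∀ j ∈ B, j ≤ Nat.log D N) :
    (N : ℝ) + 1 ≤ (∑ l ∈ Finset.range (m + 1), (m.descFactorial l : ℝ)) *
      ((3276800 * (K : ℝ) / δ) ^ n * ((D : ℝ) ^ B.card *
        (1 + 1 / (D : ℝ)) ^ (Nat.log D N + 2 - B.card))) := by
  classical
  have hD2 : 2 ≤ D := by omega
  have hDr : (2 : ℝ) ≤ (D : ℝ) := by exact_mod_cast hD2
  choose J1 hfree hJ1 using fun i => exists_top (S i) δ D N hδ1 (hp i)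
  have hgood : ∀ i, ∀ j, J1 i ≤ j → j ≤ Nat.log D N → j ∉ B →
      (runsIn (S i) ((D : ℤ) ^ j) ((D : ℤ) ^ (j + 1))).card ≤ K := by
    intro i j h1 h2 h3
    by_contra hcon
    push Not at hcon
    exact h3 (hB j h2 ⟨i, hJ1 i j h1 h2, hcon⟩)
  set G : Finset ℕ := (Finset.range (Nat.log D N + 1)) \ B with hG
  set E : Finset ℕ := insert 0 (G.image (fun j => j + 1)) with hE
  have hE1 : ∀ e ∈ E, e = 0 ∨ e - 1 ∉ B := by
    intro e he
    rw [hE, Finset.mem_insert, Finset.mem_image] at he
    rcases he with he | ⟨j, hj, rfl⟩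
    · exact Or.inl he
    · right
      rw [hG, Finset.mem_sdiff] at hj
      simpa using hj.2
  have hBsub : B ⊆ Finset.range (Nat.log D N + 1) := by
    intro j hj
    rw [Finset.mem_range]
    have := hBN j hj
    omega
  have hEcard : E.card = Nat.log D N + 2 - B.card := by
    rw [hE, Finset.card_insert_of_notMem (by
      rw [Finset.mem_image]
      rintro ⟨j, -, hj⟩
      omega), Finset.card_image_of_injective _ (fun a b h => by simpa using h), hG,
      Finset.card_sdiff_of_subset hBsub, Finset.card_range]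
    have := Finset.card_le_card hBsub
    rw [Finset.card_range] at this
    omega
  have h := Pool.Agent.Helper10.Sch.avg N
    (Fin.append (Fin.append
      (fun i => (S i).filter (fun s => s ≤ ((D ^ (J1 i) : ℕ) : ℤ)))
      (fun i => (S i).filter
        (fun s => J1 i ≤ Nat.log D s.toNat ∧ Nat.log D s.toNat ∉ B ∧ s ≤ (N : ℤ))))
      (fun l : Fin E.card => Finset.Ico (((D ^ (E.equivFin.symm l : ℕ) : ℕ)) : ℤ)
        (((D ^ stop B (E.equivFin.symm l : ℕ) : ℕ) : ℤ) * ((D ^ (E.equivFin.symm l : ℕ) : ℕ)))))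
    (Fin.append (Fin.append (fun _ => 5 / δ) (fun _ => 655360 * (K : ℝ)))
      (fun l : Fin E.card => (D : ℝ) ^ stop B (E.equivFin.symm l : ℕ) * (1 + 1 / D)))
    (fun i => by
      refine Fin.addCases (fun i => ?_) (fun l => ?_) i
      · rw [Fin.append_left, Fin.append_left]
        refine Fin.addCases (fun i => ?_) (fun i => ?_) i
        · rw [Fin.append_left, Fin.append_left]
          obtain ⟨X, hX1, hX2, hX3⟩ := hfree i
          exact dense_low (S i) X (D ^ (J1 i)) δ hδ hδ1 (Nat.one_le_pow _ _ (by omega)) (hp i)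
            hX1 hX2 hX3
        · rw [Fin.append_right, Fin.append_right]
          have h1 := dense_window _ (5 * K) (by omega)
            (few_scales (S i) D K N (J1 i) B hK hD (hS i) (hp i) (hgood i))
          have e : (2 : ℝ) ^ 17 * ((5 * K : ℕ) : ℝ) = 655360 * (K : ℝ) := by
            push_cast
            ring
          rw [e] at h1
          exact h1
      · rw [Fin.append_right, Fin.append_right]
        exact dense_gap B D _ hD2) T hT
    (fun x hx1 hx2 => by
      rcases hcov x hx1 hx2 with ⟨i, hi⟩ | hj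
      · left
        have hj1 : D ^ (Nat.log D x.toNat) ≤ x.toNat := Nat.pow_log_le_self D (by omega)
        have hj2 : x.toNat < D ^ (Nat.log D x.toNat + 1) :=
          Nat.lt_pow_succ_log_self (by omega) _
        by_cases hB' : Nat.log D x.toNat ∈ B
        · obtain ⟨e, he1, he2, he3⟩ := exists_start B _ hB'
          have heE : e ∈ E := by
            rw [hE, Finset.mem_insert, Finset.mem_image]
            rcases he2 with he2 | he2
            · exact Or.inl he2
            · rcases Nat.eq_zero_or_pos e with h0 | h0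
              · exact Or.inl h0
              · right
                refine ⟨e - 1, ?_, by omega⟩
                rw [hG, Finset.mem_sdiff, Finset.mem_range]
                have := hBN _ hB'
                exact ⟨by omega, he2⟩
          have hstop : Nat.log D x.toNat < e + stop B e := by
            by_contra hcon
            push Not at hcon
            exact stop_spec B e (he3 _ (by omega) hcon)
          refine ⟨Fin.natAdd (n + n) (E.equivFin ⟨e, heE⟩), ?_⟩
          rw [Fin.append_right, Equiv.symm_apply_apply, Finset.mem_Ico]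
          have h3 : D ^ e ≤ x.toNat := (Nat.pow_le_pow_right (by omega) he1).trans hj1
          have h4 : x.toNat < D ^ stop B e * D ^ e := by
            rw [← pow_add]
            exact lt_of_lt_of_le hj2 (Nat.pow_le_pow_right (by omega) (by omega))
          constructor
          · have : ((D ^ e : ℕ) : ℤ) ≤ ((x.toNat : ℕ) : ℤ) := by exact_mod_cast h3
            rwa [Int.toNat_of_nonneg (by omega)] at this
          · have : ((x.toNat : ℕ) : ℤ) < ((D ^ stop B e * D ^ e : ℕ) : ℤ) := by
              exact_mod_cast h4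
            rw [Int.toNat_of_nonneg (by omega), Nat.cast_mul] at this
            exact this
        · rcases le_or_gt x ((D ^ (J1 i) : ℕ) : ℤ) with h1 | h1
          · exact ⟨Fin.castAdd _ (Fin.castAdd n i), by
              rw [Fin.append_left, Fin.append_left, Finset.mem_filter]
              exact ⟨hi, h1⟩⟩
          · refine ⟨Fin.castAdd _ (Fin.natAdd n i), ?_⟩
            rw [Fin.append_left, Fin.append_right, Finset.mem_filter]
            refine ⟨hi, ?_, hB', hx2⟩
            have h2 : D ^ (J1 i) ≤ x.toNat := by omega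
            exact Nat.le_log_of_pow_le (by omega) h2
      · exact Or.inr hj)
  have e : ((Pool.Agent.Helper10.Sch.sm m : ℕ) : ℝ) =
      ∑ l ∈ Finset.range (m + 1), (m.descFactorial l : ℝ) := by
    unfold Pool.Agent.Helper10.Sch.sm
    push_cast
    rfl
  rw [e, Fin.prod_univ_add, Fin.prod_univ_add] at h
  simp only [Fin.append_left, Fin.append_right, Finset.prod_const, Finset.card_univ,
    Fintype.card_fin] at h
  rw [← mul_pow] at h
  have e2 : 5 / δ * (655360 * (K : ℝ)) = 3276800 * (K : ℝ) / δ := by ring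
  rw [e2] at h
  have e3 : (∏ l : Fin E.card, (D : ℝ) ^ stop B (E.equivFin.symm l : ℕ) * (1 + 1 / (D : ℝ))) =
      ∏ e ∈ E, ((D : ℝ) ^ stop B e * (1 + 1 / (D : ℝ))) := by
    rw [Equiv.prod_comp E.equivFin.symm
      (fun e : E => (D : ℝ) ^ stop B (e : ℕ) * (1 + 1 / (D : ℝ)))]
    exact Finset.prod_coe_sort E (fun e => (D : ℝ) ^ stop B e * (1 + 1 / (D : ℝ)))
  have e4 : ∏ e ∈ E, ((D : ℝ) ^ stop B e * (1 + 1 / (D : ℝ))) ≤
      (D : ℝ) ^ B.card * (1 + 1 / (D : ℝ)) ^ (Nat.log D N + 2 - B.card) := by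
    rw [Finset.prod_mul_distrib, Finset.prod_const, hEcard, Finset.prod_pow_eq_pow_sum]
    exact mul_le_mul_of_nonneg_right
      (pow_le_pow_right₀ (by linarith) (sum_stop B E hE1)) (by positivity)
  rw [e3] at h
  refine h.trans (mul_le_mul_of_nonneg_left (mul_le_mul_of_nonneg_left e4 ?_) ?_)
  · have : (0 : ℝ) ≤ (K : ℝ) := Nat.cast_nonneg _
    positivity
  · exact Finset.sum_nonneg fun _ _ => Nat.cast_nonneg _

end Pool.Agent.SCHL
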